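import Pool.Agent.W5h31.TL.TL9

set_option autoImplicit false
set_option linter.unusedSectionVars false
set_option linter.unusedVariables false

/-! # Survivors in intervals of length `K L log L` -/

namespace Pool.Agent.W5h31.TL

open Finset Filter Pool.Agent.H256R2.SC Pool.Agent.W5h31.RC Pool.Agent.H318R2.Cr

open scoped Classical

lemma ev_kl (K c : ℝ) (hc : 0 < c) : ∀ᶠ L : ℝ in atTop, K * Real.log L ≤ L ^ c :=
  ev_logpow1 c K hc

/-- few smooth numbers, fixed exponent -/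
theorem smooth_fix : ∃ C₃ : ℝ, 0 < C₃ ∧ ∀ δ : ℝ, 0 < δ → δ ≤ 1 / 2 →
    ∀ᶠ L : ℝ in atTop, ∀ h : ℕ, L ≤ h →
      ((Sm.S ⌊L ^ δ⌋₊ h).card : ℝ) ≤ C₃ * δ ^ 2 * h := by
  obtain ⟨C, hC, hsm⟩ := Sm.smooth_log
  refine ⟨122 * C * Real.exp 24, by positivity, fun δ hδ hδ1 => ?_⟩
  filter_upwards [Real.tendsto_log_atTop.eventually_ge_atTop (4 / δ),
    Real.tendsto_log_atTop.eventually_ge_atTop (C / δ),
    Real.tendsto_log_atTop.eventually_ge_atTop (1:ℝ), eventually_ge_atTop (1:ℝ)]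
    with L b1 b2 b3 b4
  intro h hh
  obtain ⟨l, hl⟩ : ∃ l, l = Real.log L := ⟨_, rfl⟩
  rw [← hl] at b1 b2 b3
  have hl0 : 0 < l := by linarith
  have hL0 : 0 < L := by linarith
  have hδl : 0 < δ * l := by positivity
  have hLδ : L ^ δ = Real.exp (δ * l) := by
    rw [Real.rpow_def_of_pos hL0, ← hl, mul_comm]
  rw [div_le_iff₀ hδ] at b1 b2
  obtain ⟨v, hv⟩ : ∃ v : ℕ, v = ⌊L ^ δ⌋₊ := ⟨_, rfl⟩
  rw [← hv]
  have hv2 : 2 ≤ v := by
    rw [hv]
    apply Nat.le_floor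
    rw [hLδ]
    push_cast
    have := Real.add_one_le_exp (δ * l)
    linarith
  have hvV : (v : ℝ) ≤ Real.exp (δ * l) := by
    rw [hv, ← hLδ]
    exact Nat.floor_le (Real.rpow_nonneg hL0.le _)
  have hv0 : (0:ℝ) < v := by
    have : 0 < v := by omega
    exact_mod_cast this
  have hlv : Real.log v ≤ δ * l := by
    rw [← Real.log_exp (δ * l)]
    exact Real.log_le_log hv0 hvV
  have hlv0 : 0 < Real.log v := Real.log_pos (by
    have : 1 < v := by omega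
    exact_mod_cast this)
  have hh1 : 1 ≤ h := by
    have : (1:ℝ) ≤ h := by linarith
    exact_mod_cast this
  have hh0 : (0:ℝ) < h := by linarith
  have hlh : l ≤ Real.log h := by
    rw [hl]
    exact Real.log_le_log hL0 hh
  obtain ⟨η', hη'⟩ : ∃ η' : ℝ, η' = 1 / (δ * l) := ⟨_, rfl⟩
  have hη'0 : 0 < η' := by rw [hη']; positivity
  have hη'1 : η' ≤ 1 / 4 := by
    rw [hη']
    exact one_div_le_one_div_of_le (by norm_num) (by linarith)
  have hη'C : η' * C ≤ 1 := by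
    rw [hη', one_div, inv_mul_eq_div, div_le_one hδl]
    linarith
  have hη'V : η' * (δ * l) = 1 := by
    rw [hη']
    field_simp
  have hexp1 : Real.exp 1 ≤ 3 := by
    have := Real.exp_one_lt_d9
    linarith
  have hvw : (v : ℝ) ^ η' ≤ 3 := by
    calc (v : ℝ) ^ η' ≤ (Real.exp (δ * l)) ^ η' := Real.rpow_le_rpow hv0.le hvV hη'0.le
      _ = Real.exp 1 := by rw [← Real.exp_mul, mul_comm (δ * l), hη'V]
      _ ≤ 3 := hexp1
  have hvw0 : 0 ≤ (v : ℝ) ^ η' := Real.rpow_nonneg hv0.le _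
  have hmain := hsm η' v h hη'0.le hη'1 hv2 hh1
  have hex : 4 * η' * (v : ℝ) ^ η' * (Real.log v + C) ≤ 24 := by
    have h1 : η' * (Real.log v + C) ≤ 2 := by
      have h2 : η' * Real.log v ≤ η' * (δ * l) := mul_le_mul_of_nonneg_left hlv hη'0.le
      rw [hη'V] at h2
      linarith
    have h0 : 0 ≤ η' * (Real.log v + C) := by positivity
    calc 4 * η' * (v : ℝ) ^ η' * (Real.log v + C) =
          4 * (v : ℝ) ^ η' * (η' * (Real.log v + C)) := by ring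
      _ ≤ 4 * 3 * 2 := by gcongr
      _ = 24 := by norm_num
  have hpow : (h : ℝ) ^ (1 - η') ≤ h * δ := by
    have e1 : (h : ℝ) ^ (1 - η') = h * Real.exp (-(η' * Real.log h)) := by
      rw [sub_eq_add_neg, Real.rpow_add hh0, Real.rpow_one, Real.rpow_def_of_pos hh0]
      congr 2
      ring
    rw [e1]
    apply mul_le_mul_of_nonneg_left _ hh0.le
    have e2 : 1 / δ ≤ η' * Real.log h := by
      have e3 : η' * l ≤ η' * Real.log h := mul_le_mul_of_nonneg_left hlh hη'0.le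
      have e4 : η' * l = 1 / δ := by
        rw [hη']
        field_simp
      linarith
    calc Real.exp (-(η' * Real.log h)) ≤ Real.exp (-(1 / δ)) :=
          Real.exp_le_exp.2 (by linarith)
      _ ≤ δ := by
          rw [Real.exp_neg]
          have e5 : 1 / δ ≤ Real.exp (1 / δ) := by
            have := Real.add_one_le_exp (1 / δ)
            linarith
          have e6 : (0:ℝ) < 1 / δ := by positivity
          calc (Real.exp (1 / δ))⁻¹ ≤ (1 / δ)⁻¹ := inv_anti₀ e6 e5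
            _ = δ := by rw [one_div, inv_inv]
  have hlh0 : 0 < Real.log h := by linarith
  have hfin : ((Sm.S v h).card : ℝ) * Real.log h ≤
      (122 * C * Real.exp 24 * δ ^ 2 * h) * Real.log h := by
    calc ((Sm.S v h).card : ℝ) * Real.log h
        ≤ (2 + 40 * (v : ℝ) ^ η') * (h : ℝ) ^ (1 - η') *
          (C * Real.log v * Real.exp (4 * η' * (v : ℝ) ^ η' * (Real.log v + C))) := hmain
      _ ≤ (2 + 40 * 3) * (h * δ) * (C * (δ * Real.log h) * Real.exp 24) := by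
          have e1 : Real.log v ≤ δ * Real.log h :=
            hlv.trans (mul_le_mul_of_nonneg_left hlh hδ.le)
          gcongr
      _ = (122 * C * Real.exp 24 * δ ^ 2 * h) * Real.log h := by ring
  exact le_of_mul_le_mul_right hfin hlh0

/-- the choice of `δ` and `e` -/
lemma choose_de (K C₃ : ℝ) (hK : 0 < K) (hC : 0 < C₃) : ∃ δ e : ℝ, 0 < δ ∧ δ ≤ 1 / 2 ∧ 0 < e ∧
    e ≤ 1 / 1000 ∧ K * ((C₃ * δ ^ 2 + 11 * e) * (2 / δ)) ≤ 1 / 4 := by
  obtain ⟨δ, hδ⟩ : ∃ δ : ℝ, δ = min (1 / 2) (1 / (16 * C₃ * K)) := ⟨_, rfl⟩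
  have hδ0 : 0 < δ := by rw [hδ]; positivity
  have hδ1 : δ ≤ 1 / 2 := by rw [hδ]; exact min_le_left _ _
  have hδ2 : δ ≤ 1 / (16 * C₃ * K) := by rw [hδ]; exact min_le_right _ _
  obtain ⟨e, he⟩ : ∃ e : ℝ, e = min (1 / 1000) (δ / (176 * K)) := ⟨_, rfl⟩
  have he0 : 0 < e := by rw [he]; positivity
  have he1 : e ≤ 1 / 1000 := by rw [he]; exact min_le_left _ _
  have he2 : e ≤ δ / (176 * K) := by rw [he]; exact min_le_right _ _
  refine ⟨δ, e, hδ0, hδ1, he0, he1, ?_⟩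
  have e1 : K * ((C₃ * δ ^ 2 + 11 * e) * (2 / δ)) = 2 * C₃ * K * δ + 22 * K * e / δ := by
    field_simp
    ring
  rw [e1]
  have e2 : 2 * C₃ * K * δ ≤ 1 / 8 := by
    rw [le_div_iff₀ (by positivity)] at hδ2
    nlinarith
  have e3 : 22 * K * e / δ ≤ 1 / 8 := by
    rw [div_le_iff₀ hδ0]
    rw [le_div_iff₀ (by positivity)] at he2
    nlinarith
  linarith

lemma PR_sum_bound (C₁ l e lh ly b S : ℝ) (hl : 0 < l) (he : 0 < e) (he1 : e ≤ 1 / 1000)
    (hb : b = 1 - 2 * e) (hly : ly = b * l) (hlh0 : 0 < lh) (hlh : lh ≤ (1 + e) * l)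
    (hC : C₁ / ly ≤ e) (hS : S ≤ Real.log (lh / ly) + C₁ / ly) : S ≤ 11 * e := by
  have hb0 : 0 < b := by linarith
  have hly0 : 0 < ly := by rw [hly]; positivity
  have h1 : Real.log (lh / ly) ≤ lh / ly - 1 := Real.log_le_sub_one_of_pos (by positivity)
  have h2 : lh / ly ≤ 1 + 10 * e := by
    rw [div_le_iff₀ hly0, hly]
    have : (1 + e) ≤ (1 + 10 * e) * b := by rw [hb]; nlinarith
    calc lh ≤ (1 + e) * l := hlh
      _ ≤ ((1 + 10 * e) * b) * l := mul_le_mul_of_nonneg_right this hl.le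
      _ = _ := by ring
  linarith

/-- **survivors in an interval of length `K L log L`** -/
theorem surv_K (K : ℝ) (hK : 0 < K) : ∃ e : ℝ, 0 < e ∧ e ≤ 1 / 1000 ∧
    ∀ᶠ L : ℝ in atTop, ∀ h : ℕ, L ≤ h → (h : ℝ) ≤ K * L * Real.log L → ∃ r : ℕ → ℕ,
      (((Finset.Icc 1 h).filter (fun k => ∀ p : ℕ, p.Prime → (p : ℝ) ≤ L ^ (1 - 2 * e) →
        ¬ k ≡ r p [MOD p])).card : ℝ) ≤
        1 / 4 * L * Real.log L * WW (L ^ (1 - 2 * e)) := by
  obtain ⟨C₁, hC₁0, hC₁⟩ := mertens_real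
  obtain ⟨C₂, hC₂0, hC₂⟩ := WW_ratio
  obtain ⟨C₃, hC₃0, hC₃⟩ := smooth_fix
  obtain ⟨δ, e, hδ, hδ1, he, he1, hde⟩ := choose_de K C₃ hK hC₃0
  refine ⟨e, he, he1, ?_⟩
  obtain ⟨b, hb⟩ : ∃ b : ℝ, b = 1 - 2 * e := ⟨_, rfl⟩
  rw [← hb]
  have hb0 : 0 < b := by linarith
  have hb1 : b < 1 := by linarith
  have hδb : δ ≤ b := by linarith
  filter_upwards [hC₃ δ hδ hδ1, ev_logpow1 e K he,
    Real.tendsto_log_atTop.eventually_ge_atTop (2 * C₁ / e),
    Real.tendsto_log_atTop.eventually_ge_atTop (2 * C₂ / δ),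
    Real.tendsto_log_atTop.eventually_ge_atTop (2 / δ),
    Real.tendsto_log_atTop.eventually_ge_atTop (1:ℝ), eventually_ge_atTop (1:ℝ)]
    with L hsm f1 f2 f3 f4 f5 f6
  intro h hLh hh
  obtain ⟨l, hl⟩ : ∃ l, l = Real.log L := ⟨_, rfl⟩
  rw [← hl] at f1 f2 f3 f4 f5 hh ⊢
  have hl0 : 0 < l := by linarith
  have hL0 : 0 < L := by linarith
  have hh0 : (0:ℝ) < h := by linarith
  rw [div_le_iff₀ he] at f2
  rw [div_le_iff₀ hδ] at f3 f4
  obtain ⟨y, hy⟩ : ∃ y : ℝ, y = L ^ b := ⟨_, rfl⟩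
  rw [← hy]
  have hlogy : Real.log y = b * l := by rw [hy, Real.log_rpow hL0, hl]
  have hy0 : 0 < y := by rw [hy]; exact Real.rpow_pos_of_pos hL0 _
  have hyexp : y = Real.exp (b * l) := by rw [← hlogy, Real.exp_log hy0]
  have hyL : y ≤ L := by
    rw [hy]
    calc L ^ b ≤ L ^ (1:ℝ) := Real.rpow_le_rpow_of_exponent_le f6 hb1.le
      _ = L := Real.rpow_one L
  have hyh : y ≤ h := hyL.trans hLh
  have hw : L ^ δ = Real.exp (δ * l) := by
    rw [Real.rpow_def_of_pos hL0, ← hl, mul_comm]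
  have hw2 : (2:ℝ) ≤ L ^ δ := by
    rw [hw]
    have := Real.add_one_le_exp (δ * l)
    linarith
  have hwy : L ^ δ ≤ y := by
    rw [hy]
    exact Real.rpow_le_rpow_of_exponent_le f6 hδb
  have hlogw : Real.log (L ^ δ) = δ * l := by rw [hw, Real.log_exp]
  have hlh : Real.log h ≤ (1 + e) * l := by
    have e1 : (h : ℝ) ≤ L ^ (1 + e) := by
      rw [Real.rpow_add hL0, Real.rpow_one]
      calc (h : ℝ) ≤ K * L * l := hh
        _ = L * (K * l) := by ring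
        _ ≤ L * L ^ e := mul_le_mul_of_nonneg_left f1 hL0.le
    have e2 := Real.log_le_log hh0 e1
    rw [Real.log_rpow hL0, ← hl] at e2
    exact e2
  have hlh0 : 0 < Real.log h := by
    have := Real.log_le_log hL0 hLh
    rw [← hl] at this
    linarith
  obtain ⟨r, hr⟩ := classes ⌊L ^ δ⌋₊ h y hy0.le
    ((Nat.floor_le (by linarith)).trans hwy)
  refine ⟨r, hr.trans ?_⟩
  have hpz : ∏ p ∈ Pz ⌊L ^ δ⌋₊, (1 - 1 / (p : ℝ)) = WW (L ^ δ) := by
    unfold WW Pz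
    refine Finset.prod_congr ?_ fun _ _ => rfl
    ext p
    simp only [Finset.mem_filter, Finset.mem_Ioc, Finset.mem_Icc]
    constructor
    · rintro ⟨⟨h1, h2⟩, h3⟩
      exact ⟨⟨by omega, h2⟩, h3⟩
    · rintro ⟨⟨h1, h2⟩, h3⟩
      exact ⟨⟨by omega, h2⟩, h3⟩
  rw [hpz]
  have hS := (abs_le.1 (hC₁ y h (hw2.trans hwy) hyh)).2
  have hS' : ∑ q ∈ PR y h, 1 / (q : ℝ) ≤ 11 * e := by
    refine PR_sum_bound C₁ l e (Real.log h) (Real.log y) b _ hl0 he he1 hb hlogy hlh0 hlh ?_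
      (by linarith)
    rw [hlogy, div_le_iff₀ (by positivity)]
    have : 1 / 2 ≤ b := by linarith
    have h2 : e * (1 / 2 * l) ≤ e * (b * l) := by gcongr
    linarith
  have hS0 : 0 ≤ ∑ q ∈ PR y h, 1 / (q : ℝ) := Finset.sum_nonneg fun _ _ => by positivity
  have hW := hC₂ (L ^ δ) y hw2 hwy
  rw [hlogw, hlogy] at hW
  have hWy := WW_pos y
  have hW' : WW (L ^ δ) ≤ WW y * (2 / δ) := by
    refine hW.trans (mul_le_mul_of_nonneg_left ?_ hWy.le)
    have e1 : b * l / (δ * l) = b / δ := by field_simp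
    rw [e1]
    have e2 : Real.exp (C₂ / (δ * l)) ≤ 2 := by
      have e3 : C₂ / (δ * l) ≤ 1 / 2 := by
        rw [div_le_iff₀ (by positivity)]
        linarith
      have e4 : Real.exp (1 / 2) ≤ 2 := by
        have e5 : Real.exp (1 / 2) * Real.exp (1 / 2) = Real.exp 1 := by
          rw [← Real.exp_add]
          norm_num
        have e6 := Real.exp_one_lt_d9
        have e7 := Real.exp_pos (1 / 2)
        nlinarith
      exact (Real.exp_le_exp.2 e3).trans e4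
    calc b / δ * Real.exp (C₂ / (δ * l)) ≤ 1 / δ * 2 := by
          apply mul_le_mul _ e2 (Real.exp_pos _).le (by positivity)
          exact div_le_div_of_nonneg_right hb1.le hδ.le
      _ = 2 / δ := by ring
  have hfirst : ((Sm.S ⌊L ^ δ⌋₊ h).card : ℝ) + h * ∑ q ∈ PR y h, 1 / (q : ℝ) ≤
      h * (C₃ * δ ^ 2 + 11 * e) := by
    have e1 := hsm h hLh
    have e2 := mul_le_mul_of_nonneg_left hS' hh0.le
    linarith
  calc (((Sm.S ⌊L ^ δ⌋₊ h).card : ℝ) + h * ∑ q ∈ PR y h, 1 / (q : ℝ)) * WW (L ^ δ)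
      ≤ (h * (C₃ * δ ^ 2 + 11 * e)) * (WW y * (2 / δ)) := by
        apply mul_le_mul hfirst hW' (WW_pos _).le
        positivity
    _ = h * ((C₃ * δ ^ 2 + 11 * e) * (2 / δ) * WW y) := by ring
    _ ≤ (K * L * l) * ((C₃ * δ ^ 2 + 11 * e) * (2 / δ) * WW y) := by
        apply mul_le_mul_of_nonneg_right hh
        positivity
    _ = (K * ((C₃ * δ ^ 2 + 11 * e) * (2 / δ))) * (L * l * WW y) := by ring
    _ ≤ 1 / 4 * (L * l * WW y) := mul_le_mul_of_nonneg_right hde (by positivity)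
    _ = 1 / 4 * L * l * WW y := by ring

/-- **prime-free intervals of length `K log X log log X`** -/
theorem freqK (K : ℝ) (hK : 0 < K) : ∃ η : ℝ, 0 < η ∧ η < 1 ∧ ∀ A : ℝ, 0 < A →
    ∀ᶠ X : ℝ in atTop, ∀ x : ℝ, 0 ≤ x → x ≤ Real.exp ((Real.log X) ^ A) →
      X * Real.exp (-(Real.log X) ^ η) ≤
        (((Finset.Ioc ⌊x⌋₊ ⌊x + X⌋₊).filter (fun n => ∀ k : ℕ, 1 ≤ k →
          (k : ℝ) ≤ K * Real.log X * Real.log (Real.log X) → ∃ p : ℕ, p.Prime ∧
          (p : ℝ) ≤ Real.exp (Real.log X / Real.log (Real.log X)) ∧ p ∣ n + k ∧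
            p < n + k)).card : ℝ) := by
  obtain ⟨e, he, he1, hs⟩ := surv_K K hK
  refine ⟨1 - e, by linarith, by linarith, fun A hA => ?_⟩
  obtain ⟨A', hA'⟩ : ∃ A' : ℝ, A' = max A 2 := ⟨_, rfl⟩
  have hA'1 : A ≤ A' := by rw [hA']; exact le_max_left _ _
  have hA'2 : 2 ≤ A' := by rw [hA']; exact le_max_right _ _
  have hpar : (1 / 4 : ℝ) * (1 + e) ^ 3 ≤
      (1 / 2 - 8 * e) * (((1 - 2 * e) - 2 * e) * (1 - e)) := by
    have h1 : (1 + e) ^ 3 ≤ 1.1 := by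
      calc (1 + e) ^ 3 ≤ (1 + 1 / 1000) ^ 3 := by gcongr
        _ ≤ 1.1 := by norm_num
    have h2 : (0.4:ℝ) ≤ (1 / 2 - 8 * e) * (((1 - 2 * e) - 2 * e) * (1 - e)) := by
      have h3 : (0.49:ℝ) ≤ 1 / 2 - 8 * e := by linarith
      have h4 : (0.99:ℝ) ≤ (1 - 2 * e) - 2 * e := by linarith
      have h5 : (0.99:ℝ) ≤ 1 - e := by linarith
      have h6 : (0.49:ℝ) * (0.99 * 0.99) ≤
          (1 / 2 - 8 * e) * (((1 - 2 * e) - 2 * e) * (1 - e)) := by gcongr
      linarith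
    linarith
  have hL1 : ∀ᶠ X : ℝ in atTop, K * Real.log (Real.log X) ≤ (Real.log X) ^ (1:ℝ) :=
    Real.tendsto_log_atTop.eventually (ev_logpow1 1 K one_pos)
  have hL2 : Tendsto (fun X : ℝ => Real.log (Real.log X)) atTop atTop :=
    Real.tendsto_log_atTop.comp Real.tendsto_log_atTop
  filter_upwards [freq_gen (1 - 2 * e) e (1 - e) A' (1 / 4) he (by linarith) (by linarith)
    (by linarith) (by linarith) (by linarith) (by norm_num) (by norm_num) hpar,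
    Real.tendsto_log_atTop.eventually hs, Real.tendsto_log_atTop.eventually_ge_atTop (1:ℝ),
    hL1, hL2.eventually_ge_atTop (2 / K)] with X hX hsX h1 h2 h3
  intro x hx hxA
  obtain ⟨L, hL⟩ : ∃ L : ℝ, L = Real.log X := ⟨_, rfl⟩
  rw [← hL] at hX hsX h1 h2 h3 hxA ⊢
  obtain ⟨l, hl⟩ : ∃ l : ℝ, l = Real.log L := ⟨_, rfl⟩
  rw [← hl] at hX hsX h2 h3 ⊢
  rw [Real.rpow_one] at h2
  have hL0 : 0 < L := by linarith
  rw [div_le_iff₀ hK] at h3
  have hl0 : 0 < l := by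
    by_contra hc
    push Not at hc
    nlinarith
  obtain ⟨h, hh⟩ : ∃ h : ℕ, h = ⌊K * L * l⌋₊ := ⟨_, rfl⟩
  have hKLl : 0 ≤ K * L * l := by positivity
  have hh1 : (h : ℝ) ≤ K * L * l := by rw [hh]; exact Nat.floor_le hKLl
  have hh2 : K * L * l < h + 1 := by rw [hh]; exact Nat.lt_floor_add_one _
  have hh3 : L ≤ h := by
    have : L * 2 ≤ L * (l * K) := mul_le_mul_of_nonneg_left h3 hL0.le
    nlinarith
  obtain ⟨r, hr⟩ := hsX h hh3 hh1
  have hZ : ∀ k ∈ Finset.Icc 1 h, 1 ≤ k ∧ (k : ℝ) ≤ L ^ A' := by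
    intro k hk
    rw [Finset.mem_Icc] at hk
    refine ⟨hk.1, ?_⟩
    have e1 : (k : ℝ) ≤ h := by exact_mod_cast hk.2
    have e2 : K * L * l ≤ L ^ (2:ℝ) := by
      have : L ^ (2:ℝ) = L * L := by
        rw [show (2:ℝ) = ((2:ℕ) : ℝ) by norm_num, Real.rpow_natCast]
        ring
      rw [this]
      calc K * L * l = L * (K * l) := by ring
        _ ≤ L * L := mul_le_mul_of_nonneg_left h2 hL0.le
    have e3 : L ^ (2:ℝ) ≤ L ^ A' := Real.rpow_le_rpow_of_exponent_le h1 hA'2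
    linarith
  have hxA' : x ≤ Real.exp (L ^ A') := hxA.trans
    (Real.exp_le_exp.2 (Real.rpow_le_rpow_of_exponent_le h1 hA'1))
  refine (hX (Finset.Icc 1 h) hZ r hr x hx hxA').trans ?_
  apply Nat.cast_le.2
  apply Finset.card_le_card
  intro n hn
  rw [Finset.mem_filter] at hn ⊢
  refine ⟨hn.1, fun k hk1 hk2 => hn.2 k ?_⟩
  rw [Finset.mem_Icc]
  refine ⟨hk1, ?_⟩
  rw [hh]
  exact Nat.le_floor hk2

end Pool.Agent.W5h31.TL
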