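import Pool.Agent.W5h31.RC.Cnt

set_option autoImplicit false
set_option linter.unusedSectionVars false

/-! # The alive colours when the small primes identify colours -/

namespace Pool.Agent.W5h31.TL

open Finset Pool.Agent.H256R2.SC Pool.Agent.W5h31.RC

variable {m : ℕ} {κ : Type} [Fintype κ] [DecidableEq κ]

/-- the colours not hit by `xs`, with representatives -/
def aliveR (rep : Fin m → κ → κ) (xs : Col m κ) : Finset κ :=
  univ.filter (fun k => ∀ j, xs j ≠ some (rep j k))

/-- probability that the colours of `L` are alive -/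
noncomputable def wR (rep : Fin m → κ → κ) (gs : Fin m → ℝ) (L : Finset κ) : ℝ :=
  ∏ j, (1 - ((L.image (rep j)).card : ℝ) * gs j)

/-- local weights of the model -/
noncomputable def WR (rep : Fin m → κ → κ) (gs : Fin m → ℝ) (j : Fin m) (c : Option κ) : ℝ :=
  match c with
  | none => 1 - (((univ : Finset κ).image (rep j)).card : ℝ) * gs j
  | some k => if k ∈ (univ : Finset κ).image (rep j) then gs j else 0

theorem Al_modelR (rep : Fin m → κ → κ) (gs : Fin m → ℝ) (h0 : ∀ j, 0 ≤ gs j)
    (h1 : ∀ j, (((univ : Finset κ).image (rep j)).card : ℝ) * gs j ≤ 1) :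
    Al (fun xs : Col m κ => ∏ j, WR rep gs j (xs j)) (fun xs => aliveR rep xs) (wR rep gs) where
  pr0 := fun xs => Finset.prod_nonneg fun j _ => by
    cases xs j with
    | none =>
      simp only [WR]
      linarith [h1 j]
    | some k =>
      simp only [WR]
      split_ifs
      · exact h0 j
      · exact le_rfl
  mean := by
    intro L
    have e1 : ∀ xs : Col m κ, (∏ j, WR rep gs j (xs j)) *
        (if L ⊆ aliveR rep xs then (1 : ℝ) else 0) =
        ∏ j, (WR rep gs j (xs j) * (if ∀ k ∈ L, xs j ≠ some (rep j k) then (1 : ℝ) else 0)) := by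
      intro xs
      rw [Finset.prod_mul_distrib]
      congr 1
      by_cases h : L ⊆ aliveR rep xs
      · rw [if_pos h]
        symm
        refine Finset.prod_eq_one fun j _ => ?_
        rw [if_pos]
        intro k hk
        exact (Finset.mem_filter.1 (h hk)).2 j
      · rw [if_neg h]
        rw [Finset.not_subset] at h
        obtain ⟨k, hk, hk'⟩ := h
        have : ∃ j, xs j = some (rep j k) := by
          by_contra hc
          push Not at hc
          exact hk' (Finset.mem_filter.2 ⟨mem_univ _, hc⟩)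
        obtain ⟨j, hj⟩ := this
        symm
        refine Finset.prod_eq_zero (mem_univ j) ?_
        rw [if_neg]
        intro h2
        exact h2 k hk hj
    simp_rw [e1]
    have e2 : ∑ xs : Col m κ, ∏ j, (WR rep gs j (xs j) *
        (if ∀ k ∈ L, xs j ≠ some (rep j k) then (1 : ℝ) else 0)) =
        ∏ j, ∑ c : Option κ, (WR rep gs j c *
        (if ∀ k ∈ L, c ≠ some (rep j k) then (1 : ℝ) else 0)) := by
      rw [Finset.prod_univ_sum, Fintype.piFinset_univ]
    rw [e2]
    unfold wR
    refine Finset.prod_congr rfl fun j _ => ?_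
    rw [Fintype.sum_option]
    simp only [WR]
    have e3 : ∀ l : κ, (if l ∈ (univ : Finset κ).image (rep j) then gs j else 0) *
        (if ∀ k ∈ L, (some l : Option κ) ≠ some (rep j k) then (1 : ℝ) else 0) =
        (if l ∈ (univ : Finset κ).image (rep j) then gs j else 0) -
          (if l ∈ L.image (rep j) then gs j else 0) := by
      intro l
      have e4 : (∀ k ∈ L, (some l : Option κ) ≠ some (rep j k)) ↔ l ∉ L.image (rep j) := by
        rw [Finset.mem_image]
        constructor
        · rintro h ⟨k, hk, he⟩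
          exact h k hk (by rw [he])
        · intro h k hk he
          exact h ⟨k, hk, (Option.some.inj he).symm⟩
      by_cases hl : l ∈ L.image (rep j)
      · rw [if_neg (fun h => (e4.1 h) hl), if_pos hl, if_pos]
        · simp
        · rw [Finset.mem_image] at hl ⊢
          obtain ⟨k, _, hk⟩ := hl
          exact ⟨k, mem_univ _, hk⟩
      · rw [if_pos (e4.2 hl), if_neg hl]
        simp
    simp_rw [e3]
    rw [Finset.sum_sub_distrib, Finset.sum_ite_mem, Finset.univ_inter, Finset.sum_const,
      nsmul_eq_mul, Finset.sum_ite_mem, Finset.univ_inter, Finset.sum_const, nsmul_eq_mul]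
    simp

lemma wR_nonneg (rep : Fin m → κ → κ) (gs : Fin m → ℝ) (h0 : ∀ j, 0 ≤ gs j)
    (h1 : ∀ j, (((univ : Finset κ).image (rep j)).card : ℝ) * gs j ≤ 1) (L : Finset κ) :
    0 ≤ wR rep gs L := by
  unfold wR
  refine Finset.prod_nonneg fun j _ => ?_
  have h3 : ((L.image (rep j)).card : ℝ) ≤ ((univ : Finset κ).image (rep j)).card := by
    exact_mod_cast Finset.card_le_card (Finset.image_subset_image (Finset.subset_univ L))
  have h4 := mul_le_mul_of_nonneg_right h3 (h0 j)
  linarith [h1 j]

/-- one more colour -/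
lemma wR_step (rep : Fin m → κ → κ) (gs : Fin m → ℝ) (h0 : ∀ j, 0 ≤ gs j)
    (h1 : ∀ j, (((univ : Finset κ).image (rep j)).card : ℝ) * gs j ≤ 1)
    (L : Finset κ) (k : κ) :
    wR rep gs (insert k L) ≤
      (∏ j, (if rep j k ∈ L.image (rep j) then 1 else 1 - gs j)) * wR rep gs L := by
  unfold wR
  rw [← Finset.prod_mul_distrib]
  have hcard : ∀ T : Finset κ, ∀ j, ((T.image (rep j)).card : ℝ) * gs j ≤ 1 := by
    intro T j
    have h3 : ((T.image (rep j)).card : ℝ) ≤ ((univ : Finset κ).image (rep j)).card := by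
      exact_mod_cast Finset.card_le_card (Finset.image_subset_image (Finset.subset_univ T))
    have h4 := mul_le_mul_of_nonneg_right h3 (h0 j)
    linarith [h1 j]
  refine Finset.prod_le_prod (fun j _ => by linarith [hcard (insert k L) j]) fun j _ => ?_
  rw [Finset.image_insert]
  by_cases hc : rep j k ∈ L.image (rep j)
  · rw [if_pos hc, Finset.insert_eq_of_mem hc, one_mul]
  · rw [if_neg hc, Finset.card_insert_of_notMem hc]
    push_cast
    have hL : (0:ℝ) ≤ (L.image (rep j)).card := Nat.cast_nonneg _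
    nlinarith [mul_nonneg hL (mul_nonneg (h0 j) (h0 j))]

lemma inv_one_sub_le {x : ℝ} (hx0 : 0 ≤ x) (hx : x ≤ 1 / 2) : 1 ≤ (1 - x) * Real.exp (2 * x) := by
  have h1 := Real.add_one_le_exp (2 * x)
  have h2 : 0 ≤ 1 - x := by linarith
  have h3 := mul_le_mul_of_nonneg_left h1 h2
  nlinarith

/-- removing the colliding indices -/
lemma prod_coll (gs : Fin m → ℝ) (h0 : ∀ j, 0 ≤ gs j) (h2 : ∀ j, gs j ≤ 1 / 2)
    (P : Fin m → Prop) [DecidablePred P] :
    ∏ j, (if P j then 1 else 1 - gs j) ≤
      (∏ j, (1 - gs j)) * Real.exp (2 * ∑ j with P j, gs j) := by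
  have e1 : Real.exp (2 * ∑ j with P j, gs j) = ∏ j, (if P j then Real.exp (2 * gs j) else 1) := by
    rw [Finset.sum_filter, Finset.mul_sum, Real.exp_sum]
    refine Finset.prod_congr rfl fun j _ => ?_
    split_ifs
    · rfl
    · simp
  rw [e1, ← Finset.prod_mul_distrib]
  refine Finset.prod_le_prod (fun j _ => ?_) fun j _ => ?_
  · split_ifs
    · exact zero_le_one
    · linarith [h2 j]
  · split_ifs
    · exact inv_one_sub_le (h0 j) (h2 j)
    · rw [mul_one]

/-- truncated weight -/
noncomputable def wT (rep : Fin m → κ → κ) (gs : Fin m → ℝ) (M₁ : ℕ) (L : Finset κ) : ℝ :=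
  if L.card ≤ M₁ then wR rep gs L else 0

theorem Wt_modelR (rep : Fin m → κ → κ) (gs : Fin m → ℝ) (h0 : ∀ j, 0 ≤ gs j)
    (h1 : ∀ j, (((univ : Finset κ).image (rep j)).card : ℝ) * gs j ≤ 1)
    (h2 : ∀ j, gs j ≤ 1 / 2) (M₁ : ℕ) (c : ℝ)
    (hc : ∀ (L : Finset κ) (k : κ), k ∉ L → L.card < M₁ →
      ∑ j with rep j k ∈ L.image (rep j), gs j ≤ c)
    (hβ : (∏ j, (1 - gs j)) * Real.exp (2 * c) ≤ 1) :
    Wt (wT rep gs M₁) ((∏ j, (1 - gs j)) * Real.exp (2 * c)) where
  w0 := by
    intro L
    unfold wT
    split_ifs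
    · exact wR_nonneg rep gs h0 h1 L
    · exact le_rfl
  b0 := mul_nonneg (Finset.prod_nonneg fun j _ => by linarith [h2 j]) (Real.exp_pos _).le
  b1 := hβ
  emp := by
    unfold wT wR
    rw [if_pos (by simp)]
    simp
  step := by
    intro L k hk
    unfold wT
    by_cases hL : L.card < M₁
    · rw [if_pos (by rw [Finset.card_insert_of_notMem hk]; omega), if_pos hL.le]
      refine (wR_step rep gs h0 h1 L k).trans ?_
      apply mul_le_mul_of_nonneg_right _ (wR_nonneg rep gs h0 h1 L)
      refine (prod_coll gs h0 h2 (fun j => rep j k ∈ L.image (rep j))).trans ?_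
      apply mul_le_mul_of_nonneg_left _ (Finset.prod_nonneg fun j _ => by linarith [h2 j])
      apply Real.exp_le_exp.2
      linarith [hc L k hk hL]
    · rw [if_neg (by rw [Finset.card_insert_of_notMem hk]; omega)]
      apply mul_nonneg (mul_nonneg (Finset.prod_nonneg fun j _ => by linarith [h2 j])
        (Real.exp_pos _).le)
      split_ifs
      · exact wR_nonneg rep gs h0 h1 L
      · exact le_rfl

end Pool.Agent.W5h31.TL
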