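import Pool.Agent.W5h31.RC.Par1

set_option autoImplicit false
set_option linter.unusedSectionVars false

/-! # The profile for primes above `exp (L ^ a)` -/

namespace Pool.Agent.W5h31.TL

open Finset Filter Pool.Agent.H256R2.SC Pool.Agent.W5h31.RC

open scoped Classical

/-- existence of the scale -/
lemma scale_exists2 (lam b e θ : ℝ) (hlam : 1 < lam) (he : 0 < e) (hb1 : b < 1) (hθ : 0 < θ) :
    ∀ᶠ L : ℝ in atTop, ∃ J : ℕ, xs (L ^ b) lam J ≤ θ * L / Real.log L ∧
      (1 - b - e) * Real.log L ≤ J * Real.log lam := by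
  have hll : 0 < Real.log lam := Real.log_pos hlam
  have h1 := ev_loglog e (Real.log lam - Real.log θ) he
  have h2 : ∀ᶠ L : ℝ in atTop, 1 ≤ Real.log L := Real.tendsto_log_atTop.eventually_ge_atTop 1
  have h3 := ev_loglog (1 - b) (- Real.log θ) (by linarith)
  filter_upwards [h1, h2, h3, eventually_ge_atTop (1:ℝ)] with L e1 e2 e3 e4
  have hL0 : 0 < L := by linarith
  set l := Real.log L with hl
  have hl0 : 0 < l := by linarith
  set T : ℝ := Real.log θ + (1 - b) * l - Real.log l with hT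
  have hT0 : 0 ≤ T := by linarith
  set J : ℕ := ⌊T / Real.log lam⌋₊ with hJ
  refine ⟨J, ?_, ?_⟩
  · have hJ1 : (J:ℝ) ≤ T / Real.log lam := Nat.floor_le (by positivity)
    rw [le_div_iff₀ hll] at hJ1
    unfold xs
    have g1 : lam ^ J = Real.exp (J * Real.log lam) := by
      rw [Real.exp_nat_mul, Real.exp_log (by linarith)]
    have g2 : L ^ b = Real.exp (b * l) := by
      rw [Real.rpow_def_of_pos hL0, mul_comm]
    rw [g1, g2, ← Real.exp_add]
    have g3 : θ * L / l = Real.exp (Real.log θ + l - Real.log l) := by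
      rw [Real.exp_sub, Real.exp_add, Real.exp_log hθ, Real.exp_log hL0, Real.exp_log hl0]
    rw [g3]
    apply Real.exp_le_exp.2
    rw [hT] at hJ1
    linarith
  · have hJ2 : T / Real.log lam < J + 1 := Nat.lt_floor_add_one _
    rw [div_lt_iff₀ hll] at hJ2
    rw [hT] at hJ2
    linarith

/-- the profile with the sharp cost -/
theorem sharp_prof2 (a e θ : ℝ) (ha : 0 < a) (he : 0 < e) (hae : a + 2 * e < 1) (hθ : 0 < θ) :
    ∀ᶠ L : ℝ in atTop,
    ∃ (z K : ℝ) (hh : Finset (Fin (PR (Real.exp (L ^ a)) z).card) → ℝ),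
      L ^ (a + e) ≤ Real.log z ∧
      Real.log z ≤ θ * L / Real.log L ∧
      Prof (eP (Real.exp (L ^ a)) z) (eg (Real.exp (L ^ a)) z) hh z K ∧
      (∀ s, hh s ≠ 0 → L ^ (a + e) ≤ Real.log (∏ i ∈ s, eP (Real.exp (L ^ a)) z i)) ∧
      WW (Real.exp (L ^ a)) * K * ((1 - a - 2 * e) * (1 - e) * Real.log L) ≤ 1 + e := by
  obtain ⟨C, hC, hA0⟩ := A0_upper
  obtain ⟨c, hc, hW⟩ := WW_lower
  obtain ⟨lam, hlam⟩ : ∃ lam : ℝ, lam = 1 + e := ⟨_, rfl⟩
  have hlam1 : 1 < lam := by rw [hlam]; linarith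
  have hl1 : 0 < lam - 1 := by linarith
  have he1 : e < 1 / 2 := by linarith
  obtain ⟨C₁, hC₁⟩ : ∃ C₁ : ℝ, C₁ = C / (c * (lam - 1)) := ⟨_, rfl⟩
  have hC₁0 : 0 < C₁ := by rw [hC₁]; positivity
  have hll : 0 < Real.log lam := Real.log_pos hlam1
  have hllle : Real.log lam ≤ lam - 1 := Real.log_le_sub_one_of_pos (by linarith)
  have hae0 : 0 < 1 - a - 2 * e := by linarith
  have s1 := scale_exists2 lam (a + e) e θ hlam1 he (by linarith) hθ
  have s2 : ∀ᶠ L : ℝ in atTop, (4 * C₁ + 4 + 4 * C₁ / e) * Real.log lam ≤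
      (1 - a - 2 * e) * Real.log L := by
    have := Real.tendsto_log_atTop.eventually_ge_atTop
      (((4 * C₁ + 4 + 4 * C₁ / e) * Real.log lam) / (1 - a - 2 * e))
    filter_upwards [this] with L hL
    rw [div_le_iff₀ hae0] at hL
    linarith
  have s3 : ∀ᶠ L : ℝ in atTop, 3 + 4 / e ≤ L ^ a :=
    (tendsto_rpow_atTop ha).eventually_ge_atTop _
  have s4 : ∀ᶠ L : ℝ in atTop, 1 ≤ Real.log L := Real.tendsto_log_atTop.eventually_ge_atTop 1
  filter_upwards [s1, s2, s3, s4, eventually_ge_atTop (3:ℝ)] with L t1 t2 t3 t4 t5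
  obtain ⟨J, hJ1, hJ2⟩ := t1
  have hL0 : 0 < L := by linarith
  obtain ⟨l, hl⟩ : ∃ l : ℝ, l = Real.log L := ⟨_, rfl⟩
  rw [← hl] at t2 t4 hJ1 hJ2 ⊢
  have hl0 : 0 < l := by linarith
  obtain ⟨l₀, hl₀⟩ : ∃ l₀ : ℝ, l₀ = L ^ (a + e) := ⟨_, rfl⟩
  rw [← hl₀] at hJ1 ⊢
  have hl₀0 : 0 < l₀ := by rw [hl₀]; exact Real.rpow_pos_of_pos hL0 _
  obtain ⟨H, hH⟩ : ∃ H : ℝ, H = Real.exp (L ^ a) := ⟨_, rfl⟩
  rw [← hH]
  have hlogH : Real.log H = L ^ a := by rw [hH, Real.log_exp]
  have hq4 : 0 < 4 / e := by positivity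
  have hHbig : 4 + 4 / e ≤ H := by
    rw [hH]
    have := Real.add_one_le_exp (L ^ a)
    linarith
  have hH3 : 3 ≤ H := by linarith
  have hH0 : 0 < H := by linarith
  obtain ⟨z, hz⟩ : ∃ z : ℝ, z = Real.exp (xs l₀ lam J) := ⟨_, rfl⟩
  have hlz : Real.log z = xs l₀ lam J := by rw [hz, Real.log_exp]
  have hx0J : l₀ ≤ xs l₀ lam J := by
    have := xs_mono hl₀0 hlam1 (Nat.zero_le J)
    unfold xs at this ⊢
    simpa using this
  have hl₀z : Real.exp l₀ ≤ z := by rw [hz]; exact Real.exp_le_exp.2 hx0J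
  have hHl₀ : H ≤ Real.exp l₀ := by
    rw [hH, hl₀]
    apply Real.exp_le_exp.2
    exact Real.rpow_le_rpow_of_exponent_le (by linarith) (by linarith)
  -- J is large
  have hJbig : 4 * C₁ + 4 + 4 * C₁ / e ≤ J := by
    have h1 : (4 * C₁ + 4 + 4 * C₁ / e) * Real.log lam ≤ J * Real.log lam := by
      have e1 : (1 - (a + e) - e) * l = (1 - a - 2 * e) * l := by ring
      rw [e1] at hJ2
      linarith
    exact le_of_mul_le_mul_right h1 hll
  have hq0 : 0 ≤ 4 * C₁ / e := by positivity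
  have hJ0 : (0:ℝ) < J := by linarith
  -- lower bound of the normalising sum
  obtain ⟨P, hP⟩ : ∃ P : Fin (PR H z).card → ℝ, P = eP H z := ⟨_, rfl⟩
  obtain ⟨g, hg⟩ : ∃ g : Fin (PR H z).card → ℝ, g = eg H z := ⟨_, rfl⟩
  obtain ⟨A, hA⟩ : ∃ A : ℝ, A = A0 P g l₀ := ⟨_, rfl⟩
  have hA0nn : 0 ≤ A := by
    rw [hA]
    unfold A0
    refine Finset.sum_nonneg fun s _ => Finset.prod_nonneg fun i _ => ?_
    rw [hg]
    simp only [eg]
    positivity
  have hAC : A ≤ C * l₀ / Real.log H := by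
    rw [hA, hP, hg]
    exact hA0 H z l₀ (by linarith) hHl₀ hl₀z
  have hlogHpos : 0 < Real.log H := by rw [hlogH]; linarith
  have hWH := hW H hH3
  have hWH0 := WW_pos H
  have hAW : A / (l₀ * (lam - 1)) ≤ C₁ * WW H := by
    calc A / (l₀ * (lam - 1)) ≤ (C * l₀ / Real.log H) / (l₀ * (lam - 1)) :=
          div_le_div_of_nonneg_right hAC (by positivity)
      _ = C₁ * (c / Real.log H) := by
          rw [hC₁]
          field_simp
      _ ≤ C₁ * WW H := mul_le_mul_of_nonneg_left hWH hC₁0.le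
  have hMl : ∀ j ∈ Finset.Icc 1 J, WW H / (1 + 2 / H) * xs l₀ lam j - A ≤ Mj P g l₀ lam j := by
    intro j hj
    rw [hA, hP, hg]
    exact Mj_lower H z l₀ lam J j (by linarith) hl₀0 hlam1 (Finset.mem_Icc.1 hj).2 (by rw [hz])
  have hS1 := S0_lower P g l₀ lam (WW H / (1 + 2 / H)) A hl₀0 hlam1 J hA0nn hMl
  have hHe : 1 - e / 2 ≤ 1 / (1 + 2 / H) := by
    rw [le_div_iff₀ (by positivity)]
    have h1 : 2 / H ≤ e / 2 := by
      rw [div_le_div_iff₀ hH0 (by norm_num)]
      have : 4 / e ≤ H := by linarith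
      rw [div_le_iff₀ he] at this
      linarith
    have h2 : 0 ≤ 2 / H := by positivity
    nlinarith
  have hS2 : WW H * (J * (1 - e)) ≤ S0 P g l₀ lam J := by
    refine le_trans ?_ hS1
    have h1 : WW H * (1 - e / 2) * J ≤ WW H / (1 + 2 / H) * J := by
      apply mul_le_mul_of_nonneg_right _ hJ0.le
      have h1' := mul_le_mul_of_nonneg_left hHe hWH0.le
      rwa [mul_one_div] at h1'
    have h2 : C₁ * WW H ≤ WW H * (e / 2 * J) := by
      have h3 : C₁ ≤ e / 2 * J := by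
        have h4 : 4 * C₁ / e ≤ J := by linarith
        rw [div_le_iff₀ he] at h4
        linarith
      nlinarith
    nlinarith
  have h1e : 0 < 1 - e := by linarith
  have hSpos : 0 < S0 P g l₀ lam J := lt_of_lt_of_le (by positivity) hS2
  have hsmall : A0 P g l₀ / (l₀ * (lam - 1)) ≤ S0 P g l₀ lam J := by
    rw [← hA]
    refine hAW.trans (le_trans ?_ hS2)
    have h5 : C₁ ≤ J * (1 - e) := by
      have : (1:ℝ) / 2 ≤ 1 - e := by linarith
      nlinarith
    nlinarith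
  have hp1 : ∀ i, 1 < P i := by
    intro i
    have hz0 : 0 ≤ z := by rw [hz]; exact (Real.exp_pos _).le
    have := ((mem_PR (a := H) (b := z) hz0).1 (emb_mem (PR H z) i)).2.1
    rw [hP]
    simp only [eP]
    linarith
  have hg0 : ∀ i, 0 < g i := by
    intro i
    have := hp1 i
    rw [hg]
    simp only [eg]
    rw [hP] at this
    simp only [eP] at this
    apply div_pos one_pos
    linarith
  have hprof := exists_prof P g hp1 hg0 l₀ lam hl₀0 hlam1 J hSpos hsmall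
  rw [← hz] at hprof
  subst hP
  subst hg
  refine ⟨z, 1 / S0 (eP H z) (eg H z) l₀ lam J * (lam / (lam - 1)),
    fun s => (1 / S0 (eP H z) (eg H z) l₀ lam J) * h0 (eP H z) l₀ lam J s, ?_, ?_, ?_, ?_, ?_⟩
  · rw [hlz]; exact hx0J
  · rw [hlz]; exact hJ1
  · exact hprof
  · intro s hs
    exact prof_supp_ge (eP H z) (eg H z) l₀ lam J _ s hs
  · -- the cost
    have h6 : WW H / S0 (eP H z) (eg H z) l₀ lam J ≤ 1 / (J * (1 - e)) := by
      rw [div_le_div_iff₀ hSpos (by positivity)]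
      linarith
    have h7 : (1 - a - 2 * e) * l ≤ J * (lam - 1) := by
      have e1 : (1 - (a + e) - e) * l = (1 - a - 2 * e) * l := by ring
      rw [e1] at hJ2
      nlinarith
    calc WW H * (1 / S0 (eP H z) (eg H z) l₀ lam J * (lam / (lam - 1))) *
          ((1 - a - 2 * e) * (1 - e) * l)
        = (WW H / S0 (eP H z) (eg H z) l₀ lam J) *
          (lam / (lam - 1) * ((1 - a - 2 * e) * l * (1 - e))) := by ring
      _ ≤ (1 / (J * (1 - e))) * (lam / (lam - 1) * (J * (lam - 1) * (1 - e))) := by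
          apply mul_le_mul h6 _ (by positivity) (by positivity)
          apply mul_le_mul_of_nonneg_left _ (by positivity)
          exact mul_le_mul_of_nonneg_right h7 h1e.le
      _ = lam := by field_simp
      _ = 1 + e := hlam

/-- the profile, with the lower end named -/
theorem sharp_prof2' (a e θ : ℝ) (ha : 0 < a) (he : 0 < e) (hae : a + 2 * e < 1) (hθ : 0 < θ) :
    ∀ᶠ L : ℝ in atTop,
    ∃ (H z K : ℝ) (hh : Finset (Fin (PR H z).card) → ℝ), H = Real.exp (L ^ a) ∧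
      L ^ (a + e) ≤ Real.log z ∧
      Real.log z ≤ θ * L / Real.log L ∧
      Prof (eP H z) (eg H z) hh z K ∧
      (∀ s, hh s ≠ 0 → L ^ (a + e) ≤ Real.log (∏ i ∈ s, eP H z i)) ∧
      WW H * K * ((1 - a - 2 * e) * (1 - e) * Real.log L) ≤ 1 + e := by
  filter_upwards [sharp_prof2 a e θ ha he hae hθ] with L hL
  obtain ⟨z, K, hh, h1, h2, h3, h4, h5⟩ := hL
  exact ⟨_, z, K, hh, rfl, h1, h2, h3, h4, h5⟩

end Pool.Agent.W5h31.TL
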