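import Pool.Agent.W5h31.RC.Num

set_option autoImplicit false
set_option linter.unusedSectionVars false
set_option linter.unusedVariables false

/-! # Numerical lemmas for the counting theorem -/

namespace Pool.Agent.W5h31.TL

open Finset Filter Pool.Agent.H256R2.SC Pool.Agent.W5h31.RC

/-- logarithm against powers -/
lemma ev_logpow1 (s K : ℝ) (hs : 0 < s) : ∀ᶠ L : ℝ in atTop, K * Real.log L ≤ L ^ s := by
  filter_upwards [ev_logpow s |K| hs, Real.tendsto_log_atTop.eventually_ge_atTop (1:ℝ)]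
    with L h1 h2
  have h3 : K * Real.log L ≤ |K| * Real.log L :=
    mul_le_mul_of_nonneg_right (le_abs_self K) (by linarith)
  have h4 : |K| * Real.log L ≤ |K| * (Real.log L) ^ 2 := by
    apply mul_le_mul_of_nonneg_left _ (abs_nonneg K)
    nlinarith
  linarith

/-- all the largeness conditions -/
theorem facts2 (a e b A C : ℝ) (ha : 0 < a) (he : 0 < e) (hb : 1 - a - e < b) (hb0 : 0 < b)
    (hA : 0 < A) (hC : 0 ≤ C) : ∀ᶠ L : ℝ in atTop,
    1000 ≤ L ∧ 100 * (C + 1) ≤ Real.log L ∧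
    300 * Real.log L ≤ e / 4 * L ^ e ∧
    4 * (Real.log L) ^ 2 ≤ (32 * e) / 128 * L ^ (3 * ((32 * e) / 128)) ∧
    (Real.log L) ^ 2 ≤ L ^ (1 / 2 : ℝ) ∧
    Real.log L ≤ ((32 * e) / 512) * L ∧ 10 * 128 ≤ (32 * e) * L ∧
    (A + b * 8 + 8) * Real.log L ≤ L ^ a ∧
    (8 * A / e) * Real.log L ≤ L ^ (b - (1 - a - e)) ∧
    8 / b ≤ Real.log L ∧ C / b ≤ Real.log L := by
  have s1 : ∀ᶠ L : ℝ in atTop, 100 * (C + 1) ≤ Real.log L :=
    Real.tendsto_log_atTop.eventually_ge_atTop _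
  have s2 := ev_logpow1 e (300 * (4 / e)) he
  have s3 := ev_logpow (3 * ((32 * e) / 128)) (4 * (128 / (32 * e))) (by positivity)
  have s4 := ev_logpow (1 / 2) 1 (by norm_num)
  have s5 := ev_log (show (0:ℝ) < (32 * e) / 512 by positivity)
  have s6 := ev_logpow1 a (A + b * 8 + 8) ha
  have s7 := ev_logpow1 (b - (1 - a - e)) (8 * A / e) (by linarith)
  have s8 : ∀ᶠ L : ℝ in atTop, 8 / b ≤ Real.log L :=
    Real.tendsto_log_atTop.eventually_ge_atTop _
  have s9 : ∀ᶠ L : ℝ in atTop, C / b ≤ Real.log L :=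
    Real.tendsto_log_atTop.eventually_ge_atTop _
  filter_upwards [s1, s2, s3, s4, s5, s6, s7, s8, s9, eventually_ge_atTop (1000:ℝ),
    eventually_ge_atTop (10 * 128 / (32 * e))] with L a1 a2 a3 a4 a5 a6 a7 a8 a9 a10 a11
  refine ⟨a10, a1, ?_, ?_, by linarith, a5, ?_, a6, a7, a8, a9⟩
  · have h1 : 300 * Real.log L = e / 4 * (300 * (4 / e) * Real.log L) := by
      field_simp
    rw [h1]
    exact mul_le_mul_of_nonneg_left a2 (by positivity)
  · have h1 : 4 * (Real.log L) ^ 2 =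
        (32 * e) / 128 * (4 * (128 / (32 * e)) * (Real.log L) ^ 2) := by
      field_simp
    rw [h1]
    exact mul_le_mul_of_nonneg_left a3 (by positivity)
  · rw [div_le_iff₀ (by positivity)] at a11
    linarith

/-- error term of the small primes -/
lemma n_err2 (L l a e M' m Lm : ℝ) (k : ℕ) (hL : 1000 ≤ L) (hl : 1 ≤ l) (he : 0 < e)
    (hlL : l ≤ L)
    (hLexp : L = Real.exp l) (hm0 : 0 ≤ m) (hm : m ≤ Real.exp (L ^ a)) (hM0 : 1 ≤ M')
    (hM : M' ≤ 3 * L ^ (1 - a - e)) (hM3 : M' ≤ 3 * L) (hLa : 8 * l ≤ L ^ a)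
    (hk : (k : ℝ) ≤ 45 * l * M') (f3 : 300 * l ≤ e / 4 * L ^ e)
    (h1 : L ^ a * L ^ (1 - a - e) * L ^ e = L) :
    3 * (m * M' + 1) ^ k ≤ 3 * Real.exp (e / 4 * L) := by
  apply mul_le_mul_of_nonneg_left _ (by norm_num)
  have hL0 : 0 < L := by linarith
  have p1 : 0 < L ^ a := Real.rpow_pos_of_pos hL0 _
  have p2 : 0 < L ^ (1 - a - e) := Real.rpow_pos_of_pos hL0 _
  have p3 : 0 < L ^ e := Real.rpow_pos_of_pos hL0 _
  have h2 : m * M' + 1 ≤ Real.exp (L ^ a + 2 * l) := by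
    have h3 : m * M' ≤ Real.exp (L ^ a) * (3 * L) :=
      mul_le_mul hm hM3 (by linarith) (Real.exp_pos _).le
    have h4 : (1:ℝ) ≤ Real.exp (L ^ a) := Real.one_le_exp p1.le
    have h5 : Real.exp (L ^ a + 2 * l) = Real.exp (L ^ a) * (L * L) := by
      rw [Real.exp_add, two_mul, Real.exp_add, ← hLexp]
    rw [h5]
    have h6 : Real.exp (L ^ a) * (3 * L) + 1 ≤ Real.exp (L ^ a) * (3 * L + 1) := by
      rw [mul_add, mul_one]
      linarith
    have h7 : Real.exp (L ^ a) * (3 * L + 1) ≤ Real.exp (L ^ a) * (L * L) := by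
      apply mul_le_mul_of_nonneg_left _ (by linarith)
      nlinarith
    linarith
  have h0 : 0 ≤ m * M' := mul_nonneg hm0 (by linarith)
  refine (pow_le_pow_left₀ (by linarith) h2 k).trans ?_
  rw [← Real.exp_nat_mul]
  apply Real.exp_le_exp.2
  have h3 : L ^ a + 2 * l ≤ 2 * L ^ a := by linarith
  calc (k:ℝ) * (L ^ a + 2 * l) ≤ (45 * l * M') * (2 * L ^ a) :=
        mul_le_mul hk h3 (by linarith) (by positivity)
    _ ≤ (45 * l * (3 * L ^ (1 - a - e))) * (2 * L ^ a) := by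
        apply mul_le_mul_of_nonneg_right _ (by positivity)
        exact mul_le_mul_of_nonneg_left hM (by positivity)
    _ = (270 * l) * (L ^ a * L ^ (1 - a - e)) := by ring
    _ ≤ (e / 4 * L ^ e) * (L ^ a * L ^ (1 - a - e)) := by
        apply mul_le_mul_of_nonneg_right _ (by positivity)
        linarith
    _ = e / 4 * (L ^ a * L ^ (1 - a - e) * L ^ e) := by ring
    _ = e / 4 * L := by rw [h1]

lemma n_fin2 (L l u C G N M' : ℝ) (Js k : ℕ) (hL : 1000 ≤ L) (hLexp : L = Real.exp l)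
    (hu0 : 0 ≤ u) (hu : u + 1 ≤ L ^ 2) (hJs : 44 * l * M' ≤ Js) (hk : (k : ℝ) = M')
    (hM : 1 ≤ M') (hG : G ≤ l + C) (hC : 3 ≤ 5 * l - 34 * C) (hN : 0 < N) :
    ((1 / 3) ^ Js * Real.exp (3 * (M' * l))) * N * ((u + 1) ^ k * Real.exp (34 * (M' * G))) ≤
      N / 8 := by
  have h1 := n_third (44 * l * M') Js hJs
  have h2 : (u + 1) ^ k ≤ Real.exp (2 * l * M') := by
    calc (u + 1) ^ k ≤ (L ^ 2) ^ k := pow_le_pow_left₀ (by linarith) hu _
      _ = Real.exp (2 * l * M') := by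
          rw [n_pow L l hLexp 2, ← Real.exp_nat_mul]
          congr 1
          push_cast
          rw [hk]
          ring
  have h3 : Real.exp (34 * (M' * G)) ≤ Real.exp (34 * (M' * (l + C))) := by
    apply Real.exp_le_exp.2
    apply mul_le_mul_of_nonneg_left _ (by norm_num)
    exact mul_le_mul_of_nonneg_left hG (by linarith)
  have h4 : ((1 / 3) ^ Js * Real.exp (3 * (M' * l))) * ((u + 1) ^ k *
      Real.exp (34 * (M' * G))) ≤ 1 / 8 := by
    calc ((1 / 3) ^ Js * Real.exp (3 * (M' * l))) * ((u + 1) ^ k * Real.exp (34 * (M' * G)))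
        ≤ (Real.exp (-(44 * l * M')) * Real.exp (3 * (M' * l))) *
          (Real.exp (2 * l * M') * Real.exp (34 * (M' * (l + C)))) := by
          gcongr
      _ = Real.exp (-(M' * (5 * l - 34 * C))) := by
          rw [← Real.exp_add, ← Real.exp_add, ← Real.exp_add]
          congr 1
          ring
      _ ≤ Real.exp (-(3:ℝ)) := by
          apply Real.exp_le_exp.2
          apply neg_le_neg
          nlinarith
      _ ≤ 1 / 8 := by
          rw [Real.exp_neg, ← one_div]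
          apply one_div_le_one_div_of_le (by norm_num)
          have h5 := Real.exp_one_gt_d9
          have h6 : Real.exp 3 = Real.exp 1 * Real.exp 1 * Real.exp 1 := by
            rw [← Real.exp_add, ← Real.exp_add]
            norm_num
          rw [h6]
          have h7 : (2:ℝ) * 2 * 2 ≤ Real.exp 1 * Real.exp 1 * Real.exp 1 := by
            gcongr <;> linarith
          linarith
  calc ((1 / 3) ^ Js * Real.exp (3 * (M' * l))) * N * ((u + 1) ^ k * Real.exp (34 * (M' * G)))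
      = N * (((1 / 3) ^ Js * Real.exp (3 * (M' * l))) * ((u + 1) ^ k *
        Real.exp (34 * (M' * G)))) := by ring
    _ ≤ N * (1 / 8) := mul_le_mul_of_nonneg_left h4 hN.le
    _ = N / 8 := by ring

lemma n_gs2 (L l a b C S : ℝ) (hL : L = Real.exp l) (hl : 0 < l) (hb : 0 < b) (ha1 : a ≤ 1)
    (hb8 : 8 / b ≤ l) (hCb : C / b ≤ l)
    (hS : S ≤ Real.log (L ^ a / (b * l)) + C / (b * l)) : S ≤ l := by
  rw [div_le_iff₀ hb] at hb8 hCb
  have hbl : 8 ≤ b * l := by linarith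
  have hbl0 : 0 < b * l := by linarith
  have h1 : Real.log (L ^ a / (b * l)) ≤ l - 1 := by
    have hL0 : 0 < L := by rw [hL]; exact Real.exp_pos l
    rw [Real.log_div (Real.rpow_pos_of_pos hL0 a).ne' hbl0.ne', Real.log_rpow hL0, hL,
      Real.log_exp]
    have h2 : 1 ≤ Real.log (b * l) := by
      rw [Real.le_log_iff_exp_le hbl0]
      have := Real.exp_one_lt_d9
      linarith
    have h3 : a * l ≤ 1 * l := mul_le_mul_of_nonneg_right ha1 hl.le
    linarith
  have h2 : C / (b * l) ≤ 1 := by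
    rw [div_le_one hbl0]
    linarith
  linarith

lemma n_gs3 (L l a b C S c : ℝ) (hL0 : 0 < L) (hl : 0 < l) (hb : 0 < b)
    (hb8 : 8 / b ≤ l) (hCb : C / b ≤ l) (hc : c ≤ 1 / 4) (hLa : (b * 8) * l ≤ L ^ a)
    (hS : Real.log (L ^ a / (b * l)) - C / (b * l) ≤ S) : 2 * c ≤ S := by
  rw [div_le_iff₀ hb] at hb8 hCb
  have hbl0 : 0 < b * l := by positivity
  have h1 : 2 ≤ Real.log (L ^ a / (b * l)) := by
    have h3 : (8:ℝ) ≤ L ^ a / (b * l) := by
      rw [le_div_iff₀ hbl0]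
      linarith
    rw [Real.le_log_iff_exp_le (by linarith)]
    have h5 : Real.exp 2 = Real.exp 1 * Real.exp 1 := by
      rw [← Real.exp_add]; norm_num
    have h6 := Real.exp_one_lt_d9
    have h7 : Real.exp 1 * Real.exp 1 ≤ 2.72 * 2.72 := by
      gcongr <;> linarith
    linarith
  have h2 : C / (b * l) ≤ 1 := by
    rw [div_le_one hbl0]
    linarith
  linarith

/-- the capacity -/
lemma n_cap2 (L l a e κ₀ u β B' K Wy WH : ℝ) (hL : 1000 ≤ L) (hl : 0 < l) (he : 0 < e)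
    (he1 : 32 * e < 1) (hae : a + 2 * e < 1) (hK0 : 0 ≤ K) (hκ0 : 0 ≤ κ₀) (hWH : 0 < WH)
    (hB0 : 0 ≤ B') (hβ : β ≤ B' * (1 + e)) (hu0 : 0 ≤ u)
    (hW : Wy * B' = WH) (hu : u ≤ κ₀ * L * l * Wy)
    (hκ : κ₀ * (1 + e) ^ 3 ≤ (1 / 2 - 8 * e) * ((1 - a - 2 * e) * (1 - e)))
    (hcost : WH * K * ((1 - a - 2 * e) * (1 - e) * l) ≤ 1 + e) :
    u * β * (1 + (32 * e) / 32) * K ≤ (1 / 2 - (32 * e) / 4) * L := by
  have hL0 : 0 < L := by linarith
  have e1 : (1 + (32 * e) / 32 : ℝ) = 1 + e := by ring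
  have e2 : (1 / 2 - (32 * e) / 4 : ℝ) = 1 / 2 - 8 * e := by ring
  rw [e1, e2]
  have hX : 0 < (1 - a - 2 * e) * (1 - e) := by
    apply mul_pos <;> linarith
  have h1 : u * β ≤ κ₀ * L * l * WH * (1 + e) := by
    calc u * β ≤ u * (B' * (1 + e)) := mul_le_mul_of_nonneg_left hβ hu0
      _ ≤ (κ₀ * L * l * Wy) * (B' * (1 + e)) := by
          apply mul_le_mul_of_nonneg_right hu
          apply mul_nonneg hB0
          linarith
      _ = κ₀ * L * l * (Wy * B') * (1 + e) := by ring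
      _ = _ := by rw [hW]
  have h2 : u * β * (1 + e) * K * ((1 - a - 2 * e) * (1 - e)) ≤
      (1 / 2 - 8 * e) * L * ((1 - a - 2 * e) * (1 - e)) := by
    calc u * β * (1 + e) * K * ((1 - a - 2 * e) * (1 - e))
        ≤ (κ₀ * L * l * WH * (1 + e)) * (1 + e) * K * ((1 - a - 2 * e) * (1 - e)) := by
          gcongr
      _ = κ₀ * L * (1 + e) ^ 2 * (WH * K * ((1 - a - 2 * e) * (1 - e) * l)) := by ring
      _ ≤ κ₀ * L * (1 + e) ^ 2 * (1 + e) := by
          apply mul_le_mul_of_nonneg_left hcost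
          positivity
      _ = (κ₀ * (1 + e) ^ 3) * L := by ring
      _ ≤ ((1 / 2 - 8 * e) * ((1 - a - 2 * e) * (1 - e))) * L :=
          mul_le_mul_of_nonneg_right hκ hL0.le
      _ = _ := by ring
  exact le_of_mul_le_mul_right h2 hX

end Pool.Agent.W5h31.TL
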