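import Pool.Agent.W5h31.TL.TL1
import Pool.Agent.W5h31.TL.TL2
import Pool.Agent.W5h31.TL.TL5
import Pool.Agent.W5h31.TL.TL6
import Pool.Agent.W5h31.TL.TL7

set_option autoImplicit false
set_option linter.unusedSectionVars false
set_option linter.unusedVariables false

/-! # The counting theorem -/

namespace Pool.Agent.W5h31.TL

open Finset Filter Pool.Agent.H256R2.SC Pool.Agent.W5h31.RC

open scoped Classical

lemma k1 (A b l La : ℝ) (hA : 0 < A) (hb : 0 < b) (hl : 0 < l)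
    (h : (A + b * 8 + 8) * l ≤ La) : A * l ≤ La ∧ (b * 8) * l ≤ La ∧ 8 * l ≤ La := by
  have h1 := mul_pos hA hl
  have h2 := mul_pos hb hl
  refine ⟨by linarith, by linarith, by linarith⟩

lemma k2 (u L l : ℝ) (hL : 1000 ≤ L) (hlL : l ≤ L) (h : u ≤ L * l / 2) : u + 1 ≤ L ^ 2 := by
  nlinarith

lemma k3 (x L La : ℝ) (hL : 0 < L) (hx : x ≤ L) (h : 1 ≤ La) : x ≤ L * La := by
  nlinarith

lemma k4 (s La L : ℝ) (h1 : s * La ≤ L) (h2 : 0 ≤ s) (h3 : 1 ≤ La) : s ≤ L := by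
  nlinarith

lemma k5 (x y : ℝ) (hx : 1 ≤ x) (hy : 1 ≤ y) : 1 ≤ x * y := by
  nlinarith

set_option maxHeartbeats 32000000 in
theorem cover_cnt (a e b A κ₀ : ℝ) (ha : 0 < a) (he : 0 < e) (he1 : 32 * e < 1)
    (hae : a + 2 * e < 1) (hb : 1 - a - e < b) (hb0 : 0 < b) (hA : 0 < A)
    (hκ0 : 0 ≤ κ₀) (hκ1 : κ₀ ≤ 1 / 2)
    (hκ : κ₀ * (1 + e) ^ 3 ≤ (1 / 2 - 8 * e) * ((1 - a - 2 * e) * (1 - e))) :
    ∀ᶠ L : ℝ in atTop, ∀ h : ℝ, 1 ≤ h → h ≤ L ^ A →
    ∀ U : Finset ℕ, (∀ k ∈ U, 1 ≤ k ∧ (k : ℝ) ≤ h) →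
    (U.card : ℝ) ≤ κ₀ * L * Real.log L * WW (L ^ b) →
    ∀ q₀ : ℕ, 0 < q₀ → (∀ p : ℕ, p.Prime → p ∣ q₀ → (p : ℝ) ≤ L ^ b) →
    ∀ a₀ A₁ B₁ : ℤ, 0 ≤ A₁ → A₁ ≤ B₁ → (B₁ : ℝ) + h ≤ Real.exp (L ^ A) →
    Real.exp ((1 - e / 4) * L) ≤ ((B₁ : ℝ) - A₁) / q₀ →
    ((B₁ : ℝ) - A₁) / q₀ / 8 ≤ Real.exp (3 + 2 * ((A + 4) * Real.log L * L ^ (1 - a))) *
      (((Finset.Ioc A₁ B₁).filter (fun x => (q₀ : ℤ) ∣ x - a₀ ∧
        ∀ k ∈ U, ∃ p : ℕ, p.Prime ∧ L ^ b < (p : ℝ) ∧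
          (p : ℝ) ≤ Real.exp (e ^ 2 * L / Real.log L) ∧ (p : ℤ) ∣ x + k)).card : ℝ) := by
  obtain ⟨C, hC0, hC⟩ := mertens_real
  filter_upwards [facts2 a e b A C ha he hb hb0 hA hC0,
    sharp_prof2' a e (e ^ 2) ha he hae (by positivity)] with L hfacts hprof
  obtain ⟨f1, f2, f3, f4, f5, f6, f7, f8, f9, f10, f11⟩ := hfacts
  obtain ⟨H, z, K, hh, hH, pz1, pz2, hP, hsupp, hcost⟩ := hprof
  intro h hh1 hh2 U hU hcard q₀ hq₀ hq₀' a₀ A₁ B₁ hA1 hAB hBX hN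
  obtain ⟨ε, hε⟩ : ∃ ε : ℝ, ε = 32 * e := ⟨_, rfl⟩
  have hε0 : 0 < ε := by rw [hε]; positivity
  have hε1 : ε < 1 := by rw [hε]; exact he1
  obtain ⟨l, hl⟩ : ∃ l : ℝ, l = Real.log L := ⟨_, rfl⟩
  obtain ⟨θ, hθ⟩ : ∃ θ : ℝ, θ = ε / 128 := ⟨_, rfl⟩
  have hθe : θ = e / 4 := by rw [hθ, hε]; ring
  rw [← hl] at f2 f3 f4 f5 f6 f8 f9 f10 f11 pz2 hcost hcard ⊢
  rw [← hε] at f4 f6 f7
  rw [← hθ] at f4
  have hθ0 : 0 < θ := by rw [hθ]; positivity
  have hL0 : 0 < L := by linarith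
  have hl1 : 100 ≤ l := q1 L C l hC0 f2
  have hl0 : 0 < l := by linarith
  have hLexp : L = Real.exp l := by rw [hl]; exact (Real.exp_log hL0).symm
  have ha1 : a ≤ 1 := by linarith
  have hl2L : l ^ 2 ≤ L := by
    refine f5.trans ?_
    calc L ^ (1 / 2 : ℝ) ≤ L ^ (1:ℝ) :=
          Real.rpow_le_rpow_of_exponent_le (by linarith) (by norm_num)
      _ = L := Real.rpow_one L
  obtain ⟨hlL, hl4L, _⟩ := q2 L l ε f1 hl1 hl2L
  -- powers of `L`
  obtain ⟨La, hLa⟩ : ∃ La : ℝ, La = L ^ a := ⟨_, rfl⟩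
  have hLa0 : 0 < La := by rw [hLa]; exact Real.rpow_pos_of_pos hL0 _
  have hLaL : La ≤ L := by
    rw [hLa]
    calc L ^ a ≤ L ^ (1:ℝ) := Real.rpow_le_rpow_of_exponent_le (by linarith) ha1
      _ = L := Real.rpow_one L
  obtain ⟨f8a, f8b, f8c⟩ := k1 A b l La hA hb0 hl0 (by rw [hLa]; exact f8)
  have hbl8 : 8 ≤ b * l := by
    rw [div_le_iff₀ hb0] at f10
    linarith
  -- `y`, `H`
  obtain ⟨y, hy⟩ : ∃ y : ℝ, y = L ^ b := ⟨_, rfl⟩
  have hyexp : y = Real.exp (b * l) := by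
    rw [hy, Real.rpow_def_of_pos hL0, mul_comm, hl]
  have hlogy : Real.log y = b * l := by rw [hyexp, Real.log_exp]
  have hy2 : 2 ≤ y := by
    rw [hyexp]
    have := Real.add_one_le_exp (b * l)
    linarith
  have hy0 : 0 < y := by linarith
  rw [← hy] at hcard hq₀' ⊢
  have hlogH : Real.log H = La := by rw [hH, Real.log_exp, hLa]
  have hH0 : 0 < H := by rw [hH]; exact Real.exp_pos _
  have hyH : y ≤ H := by
    rw [hyexp, hH]
    apply Real.exp_le_exp.2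
    rw [← hLa]
    linarith
  have hHbig : L ^ 3 ≤ H := by
    rw [n_pow L l hLexp 3, hH]
    apply Real.exp_le_exp.2
    rw [← hLa]
    push_cast
    linarith
  have hH3' : L ≤ L ^ 3 := by
    calc L = L ^ 1 := (pow_one L).symm
      _ ≤ L ^ 3 := pow_le_pow_right₀ (by linarith) (by norm_num)
  have hH1000 : 1000 ≤ H := by linarith
  have hhH : h ≤ H := by
    refine hh2.trans ?_
    rw [Real.rpow_def_of_pos hL0, hH]
    apply Real.exp_le_exp.2
    rw [← hl, ← hLa]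
    linarith
  have hh0 : 0 < h := by linarith
  -- `z`
  have hlzHa : La ≤ Real.log z := by
    refine le_trans ?_ pz1
    rw [hLa]
    exact Real.rpow_le_rpow_of_exponent_le (by linarith) (by linarith)
  have hlz0 : 0 < Real.log z := by linarith
  have hz0 : 0 < z := by linarith [hP.z1]
  have hzexp : z = Real.exp (Real.log z) := (Real.exp_log hz0).symm
  have hlzl : Real.log z * l ≤ ε ^ 2 / 1024 * L := by
    have e1 : ε ^ 2 / 1024 = e ^ 2 := by rw [hε]; ring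
    rw [e1]
    rwa [le_div_iff₀ hl0] at pz2
  obtain ⟨hlz16, hlz4, hlzL⟩ := q3 L l ε (Real.log z) f1 hl1 hε0 hε1 hlz0 hlzl
  have hHz : H ≤ z := by
    rw [← Real.log_le_log_iff hH0 hz0, hlogH]
    exact hlzHa
  -- the colours
  have hcardκ : (Fintype.card {k // k ∈ U} : ℝ) = U.card := by
    rw [Fintype.card_coe]
  obtain ⟨u, hu⟩ : ∃ u : ℝ, u = (Fintype.card {k // k ∈ U} : ℝ) := ⟨_, rfl⟩
  rw [← hu] at hcardκ
  have hu0 : 0 ≤ u := by rw [hu]; exact Nat.cast_nonneg _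
  have hWy0 := WW_pos y
  have hWy1 := WW_le_one y
  have hucap : u ≤ κ₀ * L * l * WW y := by rw [hcardκ]; exact hcard
  have huLl : u ≤ L * l / 2 := by
    refine hucap.trans ?_
    calc κ₀ * L * l * WW y ≤ 1 / 2 * L * l * 1 := by gcongr
      _ = L * l / 2 := by ring
  have huL2 : u + 1 ≤ L ^ 2 := k2 u L l f1 hlL huLl
  -- the large primes
  obtain ⟨P, hPdef⟩ : ∃ P : Fin (PR H z).card → ℝ, P = eP H z := ⟨_, rfl⟩
  obtain ⟨g, hg⟩ : ∃ g : Fin (PR H z).card → ℝ, g = eg H z := ⟨_, rfl⟩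
  rw [← hPdef] at hP hsupp
  rw [← hg] at hP
  have hPH : ∀ i, H < P i := fun i => by
    rw [hPdef]
    exact ((mem_PR hz0.le).1 (emb_mem (PR H z) i)).2.1
  have hPH3 : ∀ i, L ^ 3 < P i := fun i => lt_of_le_of_lt hHbig (hPH i)
  have hPz : ∀ i, P i ≤ z := fun i => by
    rw [hPdef]
    exact ((mem_PR hz0.le).1 (emb_mem (PR H z) i)).2.2
  have hP1 : ∀ i, 1 < P i := hP.p1
  have hg0 : ∀ i, 0 < g i := hP.g0
  have hgP : ∀ i, g i = 1 / P i := fun i => by rw [hg, hPdef]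
  have hL3pos : 0 < L ^ 3 := by positivity
  have hgH : ∀ i, g i ≤ 1 / L ^ 3 := fun i => by
    rw [hgP]
    exact one_div_le_one_div_of_le hL3pos (hPH3 i).le
  have hHinv : 1 / L ^ 3 ≤ 1 / 1000 := q6 (L ^ 3) L f1 rfl
  -- the small primes
  obtain ⟨gs, hgs⟩ : ∃ gs : Fin (PR y H).card → ℝ, gs = eg y H := ⟨_, rfl⟩
  have hsp : ∀ j : Fin (PR y H).card, y < ((emb (PR y H) j : ℕ) : ℝ) := fun j =>
    ((mem_PR hH0.le).1 (emb_mem (PR y H) j)).2.1
  have hspp : ∀ j : Fin (PR y H).card, (emb (PR y H) j : ℕ).Prime := fun j =>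
    ((mem_PR hH0.le).1 (emb_mem (PR y H) j)).1
  have hgs0 : ∀ j, 0 ≤ gs j := fun j => by
    rw [hgs]
    simp only [eg]
    positivity
  have hgs2 : ∀ j, gs j ≤ 1 / 2 := fun j => by
    rw [hgs]
    simp only [eg]
    exact one_div_le_one_div_of_le (by norm_num) (by linarith [hsp j])
  have hrep1 : ∀ j : Fin (PR y H).card, (((univ : Finset {k // k ∈ U}).image
      (rep (emb (PR y H) j))).card : ℝ) * gs j ≤ 1 := fun j => by
    have h1 := rep_card (U := U) (emb (PR y H) j) (hspp j).pos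
    have h2 : ((((univ : Finset {k // k ∈ U}).image (rep (emb (PR y H) j))).card : ℕ) : ℝ) ≤
        ((emb (PR y H) j : ℕ) : ℝ) := by exact_mod_cast h1
    have h3 : (0:ℝ) < ((emb (PR y H) j : ℕ) : ℝ) := by linarith [hsp j]
    rw [hgs]
    simp only [eg]
    rw [mul_one_div, div_le_one h3]
    exact h2
  have hsumgs_eq : ∑ j, gs j = ∑ p ∈ PR y H, 1 / (p : ℝ) := by
    rw [hgs]
    exact sum_emb (PR y H) (fun p => 1 / (p : ℝ))
  have hmert := abs_le.1 (hC y H hy2 hyH)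
  rw [← hsumgs_eq, hlogH, hlogy, hLa] at hmert
  have hsumgs : ∑ j, gs j ≤ l := n_gs2 L l a b C _ hLexp hl0 hb0 ha1 f10 f11 (by linarith)
  have hgsum0 : 0 ≤ ∑ j, gs j := Finset.sum_nonneg fun j _ => hgs0 j
  -- the sum over the large primes
  have hG : ∑ i, g i ≤ l + C := by
    have h1 : ∑ i, g i = ∑ p ∈ PR H z, 1 / (p : ℝ) := by
      rw [hg]
      exact sum_emb (PR H z) (fun p => 1 / (p : ℝ))
    rw [h1]
    have h2 := (abs_le.1 (hC H z (by linarith) hHz)).2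
    rw [hlogH] at h2
    have h3 : Real.log (Real.log z / La) ≤ l := by
      rw [hl]
      apply Real.log_le_log (by positivity)
      rw [div_le_iff₀ hLa0]
      have : 1 ≤ La := by linarith
      exact k3 _ L La hL0 hlzL this
    have h4 : C / La ≤ C := by
      apply div_le_self hC0
      linarith
    linarith
  have hGn : 0 ≤ ∑ i, g i := Finset.sum_nonneg (fun i _ => (hg0 i).le)
  have hCl : C ≤ l / 100 := by linarith
  have hG2 : ∑ i, g i ≤ 2 * l := by linarith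
  -- parameters
  obtain ⟨Q, hQ⟩ : ∃ Q : ℝ, Q = Real.exp ((1 / 2 - ε / 16) * L) := ⟨_, rfl⟩
  have hQ0 : 0 < Q := by rw [hQ]; exact Real.exp_pos _
  have hQ1 : 1 ≤ Q := by
   rw [hQ]
   exact Real.one_le_exp (by
    have : 0 ≤ 1 / 2 - ε / 16 := by linarith
    positivity)
  have hlogQ : Real.log Q = (1 / 2 - ε / 16) * L := by rw [hQ]; exact Real.log_exp _
  obtain ⟨J, hJ⟩ : ∃ J : ℕ, J = 2 * ⌈12 * l⌉₊ := ⟨_, rfl⟩
  have hJ1 : 24 * l ≤ (J:ℝ) := by
    have := Nat.le_ceil (12 * l)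
    rw [hJ]; push_cast; linarith
  have hJ2 : (J:ℝ) ≤ 25 * l := by
    have := Nat.ceil_lt_add_one (show 0 ≤ 12 * l by positivity)
    rw [hJ]; push_cast; linarith
  have hJe : Even J := ⟨⌈12 * l⌉₊, by rw [hJ]; ring⟩
  obtain ⟨M, hM⟩ : ∃ M : ℕ, M = ⌊L ^ (1 - a - e)⌋₊ := ⟨_, rfl⟩
  obtain ⟨v, hv⟩ : ∃ v : ℝ, v = L ^ (1 - a - e) := ⟨_, rfl⟩
  have hv0 : 0 < v := by rw [hv]; exact Real.rpow_pos_of_pos hL0 _
  have hv1 : 1 ≤ v := by rw [hv]; exact Real.one_le_rpow (by linarith) (by linarith)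
  have hLev : L ^ (a + e) * v = L := by
    rw [hv, ← Real.rpow_add hL0]
    have : a + e + (1 - a - e) = 1 := by ring
    rw [this, Real.rpow_one]
  have hLaev : L ^ a * v * L ^ e = L := by
    rw [hv, ← Real.rpow_add hL0, ← Real.rpow_add hL0]
    have : a + (1 - a - e) + e = 1 := by ring
    rw [this, Real.rpow_one]
  have hvL : v ≤ L := by
    rw [hv]
    calc L ^ (1 - a - e) ≤ L ^ (1:ℝ) :=
          Real.rpow_le_rpow_of_exponent_le (by linarith) (by linarith)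
      _ = L := Real.rpow_one L
  have hM1 : (M:ℝ) ≤ v := by rw [hM, hv]; exact Nat.floor_le (Real.rpow_nonneg hL0.le _)
  have hM2 : ((2 * M + 1 : ℕ) : ℝ) ≤ 3 * v := by
    push_cast
    linarith
  have hM0 : (1:ℝ) ≤ ((2 * M + 1 : ℕ) : ℝ) := by
    push_cast
    have : (0:ℝ) ≤ M := Nat.cast_nonneg _
    linarith
  obtain ⟨M', hM'⟩ : ∃ M' : ℝ, M' = ((2 * M + 1 : ℕ) : ℝ) := ⟨_, rfl⟩
  rw [← hM'] at hM2 hM0
  obtain ⟨Js, hJs⟩ : ∃ Js : ℕ, Js = 2 * ⌈22 * l * M'⌉₊ := ⟨_, rfl⟩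
  have hlM0 : 0 ≤ 22 * l * M' := by positivity
  have hJs1 : 44 * l * M' ≤ (Js:ℝ) := by
    have := Nat.le_ceil (22 * l * M')
    rw [hJs]; push_cast; linarith
  have hJs2 : (Js:ℝ) + 1 ≤ 45 * l * M' := by
    have h1 := Nat.ceil_lt_add_one hlM0
    have h2 : 100 * 1 ≤ l * M' := mul_le_mul hl1 hM0 (by norm_num) hl0.le
    rw [hJs]; push_cast
    linarith
  have hJse : Even Js := ⟨⌈22 * l * M'⌉₊, by rw [hJs]; ring⟩
  obtain ⟨ρ, hρ⟩ : ∃ ρ : ℝ, ρ = (1 / 3) ^ Js * Real.exp (3 * (M' * l)) := ⟨_, rfl⟩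
  have hρ0 : 0 ≤ ρ := by rw [hρ]; positivity
  obtain ⟨m, hm⟩ : ∃ m : ℝ, m = (((PR y H).card : ℕ) : ℝ) := ⟨_, rfl⟩
  have hm0 : 0 ≤ m := by rw [hm]; exact Nat.cast_nonneg _
  obtain ⟨Err, hErrdef⟩ : ∃ Err : ℝ, Err = 3 * (m * M' + 1) ^ (Js + 1) := ⟨_, rfl⟩
  have hmM0 : 0 ≤ m * M' := by positivity
  have hErr0 : 0 ≤ Err := by rw [hErrdef]; positivity
  obtain ⟨N, hNdef⟩ : ∃ N : ℝ, N = ((B₁ : ℝ) - A₁) / q₀ := ⟨_, rfl⟩
  rw [← hNdef] at hN ⊢
  rw [← hθe] at hN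
  have hN0 : 0 < N := lt_of_lt_of_le (Real.exp_pos _) hN
  obtain ⟨CV, hCVdef⟩ : ∃ CV : ℝ,
    CV = Q ^ (1 + θ) * Real.exp (2 * u * ∑ i, (P i) ^ (-(1 + θ))) := ⟨_, rfl⟩
  have hCV0 : 0 ≤ CV := by
    rw [hCVdef]
    exact mul_nonneg (Real.rpow_nonneg hQ0.le _) (Real.exp_pos _).le
  -- number of small primes
  have hmH : m ≤ Real.exp (L ^ a) := by
    rw [hm, ← hH]
    have h1 : PR y H ⊆ Finset.Icc 1 ⌊H⌋₊ := Finset.filter_subset _ _
    have h2 := Finset.card_le_card h1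
    rw [Nat.card_Icc, Nat.add_sub_cancel] at h2
    calc (((PR y H).card : ℕ) : ℝ) ≤ (⌊H⌋₊ : ℝ) := by exact_mod_cast h2
      _ ≤ H := Nat.floor_le hH0.le
  obtain ⟨n, hn⟩ : ∃ n : ℝ, n = (((PR H z).card : ℕ) : ℝ) := ⟨_, rfl⟩
  have hn0 : 0 ≤ n := by rw [hn]; exact Nat.cast_nonneg _
  have hn1 : n + 1 ≤ z := by
    rw [hn]
    have h1 : PR H z ⊆ Finset.Icc 2 ⌊z⌋₊ := by
      intro p hp
      have h2 := (mem_PR hz0.le).1 hp
      rw [Finset.mem_Icc]
      exact ⟨h2.1.two_le, Nat.le_floor h2.2.2⟩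
    have h2 := Finset.card_le_card h1
    rw [Nat.card_Icc] at h2
    have h3 : 1 ≤ ⌊z⌋₊ := Nat.le_floor (by
      push_cast
      exact hP.z1.le)
    have h4 : (PR H z).card + 1 ≤ ⌊z⌋₊ := by omega
    calc (((PR H z).card : ℕ) : ℝ) + 1 ≤ (⌊z⌋₊ : ℝ) := by exact_mod_cast h4
      _ ≤ z := Nat.floor_le hz0.le
  -- bound of the error term of the small primes
  have hErr : Err ≤ 3 * Real.exp (θ * L) := by
    rw [hErrdef, hθe]
    refine n_err2 L l a e M' m 0 (Js + 1) f1 (by linarith) he hlL hLexp hm0 hmH hM0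
      (by rw [← hv]; exact hM2) (by linarith) (by rw [← hLa]; exact f8c) ?_ f3
      (by rw [← hv]; exact hLaev)
    push_cast
    exact hJs2
  -- bound of the number of assignments
  have hCV : CV ≤ Real.exp ((1 / 2 - ε / 16 + 3 / 2 * θ) * L) := by
    rw [hCVdef, hQ]
    exact n_cv L l (L ^ 3) u ε θ P g f1 hl0 hε0 hε1 hθ rfl hPH3 hgP hu0 huLl hG2 f4
  have hzJ : z ^ J ≤ Real.exp (ε / 32 * L) := n_zJ L l ε z J f1 hε0 hε1 hz0 hlz0 hJ2 hlzl
  have hU1 : 1 + u * (n + 1) ^ J ≤ 2 * Real.exp ((ε / 32 + θ) * L) :=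
    n_U1 L l ε θ z u n J f1 hε0 hθ hLexp hn0 hn1 hu0 (by linarith) f6 hzJ
  -- sizes of supports
  have hqqexp : ∀ D : Col (PR H z).card {k // k ∈ U}, qq P D ≤ Q →
      ((supp D).card : ℝ) * La ≤ L := by
    intro D hD
    have h1 : Real.exp (((supp D).card : ℝ) * La) ≤ qq P D := by
      unfold qq
      rw [prod_nu1]
      have : Real.exp (((supp D).card : ℝ) * La) = ∏ i ∈ supp D, Real.exp La := by
        rw [Finset.prod_const, ← Real.exp_nat_mul]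
      rw [this]
      apply Finset.prod_le_prod
      · intro i _; exact (Real.exp_pos _).le
      · intro i _
        have e1 : Real.exp La = H := by rw [hH, hLa]
        rw [e1]
        exact (hPH i).le
    have h2 := h1.trans hD
    rw [hQ] at h2
    have h3 := Real.exp_le_exp.mp h2
    have : 0 < ε * L := by positivity
    linarith
  have hsuppc : ∀ D : Col (PR H z).card {k // k ∈ U}, qq P D ≤ Q → ((supp D).card : ℝ) ≤ L := by
    intro D hD
    have h1 := hqqexp D hD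
    have h2 : (0:ℝ) ≤ (supp D).card := Nat.cast_nonneg _
    have h3 : (1:ℝ) ≤ La := by linarith
    exact k4 _ La L h1 h2 h3
  obtain ⟨ms, hms⟩ : ∃ ms : ℕ, ms = ⌊L ^ (1 - a)⌋₊ := ⟨_, rfl⟩
  have hL1a0 : 0 < L ^ (1 - a) := Real.rpow_pos_of_pos hL0 _
  have hms1 : (ms:ℝ) ≤ L ^ (1 - a) := by rw [hms]; exact Nat.floor_le hL1a0.le
  have hLa1a : La * L ^ (1 - a) = L := by
    rw [hLa, ← Real.rpow_add hL0]
    have : a + (1 - a) = 1 := by ring
    rw [this, Real.rpow_one]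
  have hsuppm : ∀ D : Col (PR H z).card {k // k ∈ U}, qq P D ≤ Q → (supp D).card ≤ ms := by
    intro D hD
    rw [hms]
    apply Nat.le_floor
    have h1 := hqqexp D hD
    have h2 : ((supp D).card : ℝ) * La ≤ L ^ (1 - a) * La := by
      rw [mul_comm (L ^ (1 - a)), hLa1a]
      exact h1
    exact le_of_mul_le_mul_right h2 hLa0
  have hδ : ∀ D : Col (PR H z).card {k // k ∈ U}, qq P D ≤ Q →
      2 * ∑ i with D i ≠ none, g i ≤ 2 / L ^ 2 := by
    intro D hD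
    have h1 : ∑ i with D i ≠ none, g i ≤ (supp D).card * (1 / L ^ 3) := by
      have : ∑ i ∈ supp D, g i ≤ ∑ i ∈ supp D, (1 / L ^ 3) :=
        Finset.sum_le_sum (fun i _ => hgH i)
      rw [Finset.sum_const, nsmul_eq_mul] at this
      exact this
    have h2 := hsuppc D hD
    have h3 : ((supp D).card : ℝ) * (1 / L ^ 3) ≤ L * (1 / L ^ 3) :=
      mul_le_mul_of_nonneg_right h2 (by positivity)
    have h4 : L * (1 / L ^ 3) = 1 / L ^ 2 := by field_simp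
    have h6 : 2 / L ^ 2 = 2 * (1 / L ^ 2) := by ring
    rw [h6]
    linarith
  -- the weights
  obtain ⟨c, hc⟩ : ∃ c : ℝ, c = e / 4 := ⟨_, rfl⟩
  have hcoll : ∀ (T : Finset {k // k ∈ U}) (k : {k // k ∈ U}), k ∉ T → T.card < M →
      ∑ j with rep (emb (PR y H) j) k ∈ T.image (rep (emb (PR y H) j)), gs j ≤ c := by
    intro T k hk hT
    have h1 := coll_le y H h hy0 hyH hh1 U hU T k hk
    rw [hgs]
    simp only [eg]
    refine h1.trans ?_
    have hlogh : Real.log h ≤ A * l := by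
      have := Real.log_le_log hh0 hh2
      rw [Real.log_rpow hL0, ← hl] at this
      exact this
    have hlogh0 : 0 ≤ Real.log h := Real.log_nonneg hh1
    have hTv : (T.card : ℝ) ≤ v := by
      have : (T.card : ℝ) ≤ M := by exact_mod_cast hT.le
      linarith
    have hT0 : (0:ℝ) ≤ T.card := Nat.cast_nonneg _
    have h2 : (T.card : ℝ) * (2 * Real.log h) ≤ v * (2 * (A * l)) := by
      apply mul_le_mul hTv _ (by positivity) hv0.le
      linarith
    rw [div_le_iff₀ hy0, hc]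
    have h3 : y = v * L ^ (b - (1 - a - e)) := by
      rw [hy, hv, ← Real.rpow_add hL0]
      congr 1
      ring
    rw [h3]
    have h4 : v * (2 * (A * l)) ≤ e / 4 * (v * L ^ (b - (1 - a - e))) := by
      have h5 := mul_le_mul_of_nonneg_left f9 (show 0 ≤ e / 4 * v by positivity)
      have h6 : e / 4 * v * (8 * A / e * l) = v * (2 * (A * l)) := by
        field_simp
        ring
      rw [h6] at h5
      linarith
    linarith
  obtain ⟨B', hB'⟩ : ∃ B' : ℝ, B' = ∏ j, (1 - gs j) := ⟨_, rfl⟩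
  have hB0 : 0 ≤ B' := by
    rw [hB']
    exact Finset.prod_nonneg fun j _ => by linarith [hgs2 j]
  have hWmul : WW y * B' = WW H := by
    rw [hB', hgs]
    exact WW_mul y H hy0.le hyH
  have hB'exp : B' ≤ Real.exp (-∑ j, gs j) := by
    rw [hB', ← Finset.sum_neg_distrib, Real.exp_sum]
    refine Finset.prod_le_prod (fun j _ => by linarith [hgs2 j]) fun j _ => ?_
    have := Real.add_one_le_exp (-gs j)
    linarith
  have hβ1 : B' * Real.exp (2 * c) ≤ 1 := by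
    have h1 : 2 * c ≤ ∑ j, gs j := by
      refine n_gs3 L l a b C _ c hL0 hl0 hb0 f10 f11 (by rw [hc]; linarith) ?_ (by linarith)
      rw [← hLa]
      exact f8b
    calc B' * Real.exp (2 * c) ≤ Real.exp (-∑ j, gs j) * Real.exp (2 * c) :=
          mul_le_mul_of_nonneg_right hB'exp (Real.exp_pos _).le
      _ = Real.exp (2 * c - ∑ j, gs j) := by
          rw [← Real.exp_add]
          congr 1
          ring
      _ ≤ 1 := Real.exp_le_one_iff.2 (by linarith)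
  obtain ⟨β, hβ⟩ : ∃ β : ℝ, β = B' * Real.exp (2 * c) := ⟨_, rfl⟩
  have hβe : β ≤ B' * (1 + e) := by
    rw [hβ]
    apply mul_le_mul_of_nonneg_left _ hB0
    have h1 : 2 * c = e / 2 := by rw [hc]; ring
    rw [h1]
    have h2 := exp_sub_one_le (x := e / 2) (τ := 1) (by positivity) (by linarith) le_rfl
    linarith
  -- the capacity
  have hK0 : 0 ≤ K := hP.K0
  have hcap : u * β * (1 + ε / 32) * K ≤ (1 / 2 - ε / 4) * L := by
    rw [hε]
    exact n_cap2 L l a e κ₀ u β B' K (WW y) (WW H) f1 hl0 he he1 hae hK0 hκ0 (WW_pos H) hB0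
      hβe hu0 hWmul hucap hκ hcost
  have htail : (u + 1 : ℝ) * ((2 / L ^ 2) ^ 2 + Real.exp (ε / 32 / Real.log z *
      (u * β * (1 + ε / 32) * K - Real.log (Q / z)))) ≤ 1 / 8 :=
    n_tail L l ε u _ Q z f1 hl0 hε0 hε1 hLexp hu0 huL2 hcap hQ0 hz0 hlogQ hlz0 hlz16 hlzl
  have hmom : u * (1 / 3) ^ J * Real.exp ((2 + 6 * 3) * ∑ i, g i) ≤ 1 / 8 :=
    n_mom L l u _ J f1 hLexp hu0 (by linarith) hJ1 (by linarith)
  have hfin1 : ρ * N * ((u + 1) ^ (2 * M + 1) *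
      Real.exp (34 * (M' * ∑ i, g i))) ≤ N / 8 := by
    rw [hρ]
    exact n_fin2 L l u C _ N M' Js (2 * M + 1) f1 hLexp hu0 huL2 hJs1 hM'.symm hM0 hG
      (by linarith) hN0
  have hfin2 : Err * (CV * CV * (1 + u * (n + 1) ^ J)) < N / 4 := by
    refine num_fin ε θ L l N Err CV _ hε0 hθ hL0 f7 hErr0 hCV0 ?_ hErr hCV hU1 hN
    positivity
  have hfin : ρ * N * ((u + 1) ^ (2 * M + 1) *
      Real.exp (34 * (M' * ∑ i, g i))) + Err * (CV * CV * (1 + u * (n + 1) ^ J)) ≤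
        3 * N / 8 := by
    linarith
  -- the set
  obtain ⟨𝒜, h𝒜⟩ : ∃ 𝒜 : Finset ℤ,
    𝒜 = (Finset.Ioc A₁ B₁).filter (fun a => (q₀ : ℤ) ∣ a - a₀) := ⟨_, rfl⟩
  have hcnt : ∀ (D : Col (PR H z).card {k // k ∈ U}) (T : Finset {k // k ∈ U}),
      qq P D ≤ Q * Q * z ^ J → T.card ≤ M + M + 1 →
      |((𝒜.filter (fun a => (∀ i, D i ≠ none → colr (PR H z) rs a i = D i) ∧
        T ⊆ aliveR (fun j => rep (emb (PR y H) j)) (scolr U (PR y H) a))).card : ℝ) -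
        N * (nu g D * wR (fun j => rep (emb (PR y H) j)) gs T)| ≤ ρ * (N * nu g D) + Err := by
    intro D T _ hT
    have h1 := count_aliveR h y H z hy0 hyH hhH hHz U hU q₀ hq₀ hq₀' a₀ A₁ B₁ hAB D T
      (2 * M + 1) (by omega) Js hJse 3 (by norm_num)
    have hν : 0 ≤ N * nu g D := by
      apply mul_nonneg hN0.le
      exact nu_nn hP D
    have e1 : (fun i => 1 / ((emb (PR H z) i : ℕ) : ℝ)) = g := by rw [hg]
    have e2 : (fun j => 1 / ((emb (PR y H) j : ℕ) : ℝ)) = gs := by rw [hgs]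
    rw [e1, e2, ← hNdef, ← h𝒜, ← hm, ← hM', ← hErrdef] at h1
    refine h1.trans ?_
    apply add_le_add _ le_rfl
    apply mul_le_mul_of_nonneg_right _ hν
    rw [hρ]
    apply mul_le_mul_of_nonneg_left _ (by positivity)
    apply Real.exp_le_exp.2
    apply mul_le_mul_of_nonneg_left _ (by norm_num)
    exact mul_le_mul_of_nonneg_left hsumgs (by linarith)
  have a1 : ∀ i, g i ≤ 1 := fun i => by linarith [hgH i]
  have a2 : ∀ i, 3 * 3 * g i ≤ 1 := fun i => by linarith [hgH i]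
  have a3 : ∀ i, u * g i ≤ 1 := fun i => by
    have h1 : u * g i ≤ L ^ 2 * (1 / L ^ 3) := mul_le_mul (by linarith) (hgH i) (hg0 i).le
      (by positivity)
    have h2 : L ^ 2 * (1 / L ^ 3) = 1 / L := by field_simp
    have h3 : 1 / L ≤ 1 := by rw [div_le_one hL0]; linarith
    linarith
  have a4 : ∀ i, M' * g i ≤ 1 := fun i => by
    have h1 : M' * g i ≤ (3 * L) * (1 / L ^ 3) := mul_le_mul (by linarith) (hgH i) (hg0 i).le
      (by positivity)
    have h2 : (3 * L) * (1 / L ^ 3) = 3 / L ^ 2 := by field_simp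
    have h3 : 3 / L ^ 2 ≤ 1 := q9 L f1
    linarith
  have a5 : u * (2 / L ^ 2) ≤ 1 / 4 := by
    have h1 : u * (2 / L ^ 2) ≤ (L * l / 2) * (2 / L ^ 2) :=
      mul_le_mul_of_nonneg_right huLl (by positivity)
    have e : (L * l / 2) * (2 / L ^ 2) = l / L := by field_simp
    have h2 : l / L ≤ 1 / 4 := q10 L l f1 hl4L
    linarith
  have a6 : ∀ D : Col (PR H z).card {k // k ∈ U}, yT P hh Q D ≠ 0 → (cs D).card ≤ M :=
    fun D hD => by
    have h1 := cs_card_le P hP1 hh Q (L ^ (a + e)) (Real.rpow_pos_of_pos hL0 _) hQ0 hsupp D hD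
    rw [hlogQ] at h1
    rw [hM, ← hv]
    apply Nat.le_floor
    have h2 : ((cs D).card : ℝ) * L ^ (a + e) ≤ v * L ^ (a + e) := by
      rw [mul_comm v, hLev]
      have : 0 < ε * L := by positivity
      linarith
    exact le_of_mul_le_mul_right h2 (Real.rpow_pos_of_pos hL0 _)
  have a7 := count_assign' (κ := {k // k ∈ U}) P (fun i => (hP1 i).le) θ hθ0.le Q hQ0
  rw [← hu, ← hCVdef] at a7
  -- the bound of the weight
  obtain ⟨X, hX⟩ : ∃ X : ℝ, X = L ^ (A + 4) := ⟨_, rfl⟩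
  obtain ⟨S, hSdef⟩ : ∃ S : ℝ, S = (3 * X ^ ms) ^ 2 := ⟨_, rfl⟩
  have hXbig : 1 + u * (2 * L ^ A) + u * ∑ i, g i ≤ X := by
    have hLA0 : 0 < L ^ A := Real.rpow_pos_of_pos hL0 _
    have hLA1 : 1 ≤ L ^ A := Real.one_le_rpow (by linarith) hA.le
    have h1 : u ≤ L ^ 2 := by linarith
    have h2 : X = L ^ A * L ^ 4 := by
      rw [hX, Real.rpow_add hL0]
      congr 1
      rw [← Real.rpow_natCast]
      norm_num
    have h3 : u * (2 * L ^ A) ≤ L ^ 2 * (2 * L ^ A) :=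
      mul_le_mul_of_nonneg_right h1 (by positivity)
    have h4 : u * ∑ i, g i ≤ L ^ 2 * (2 * L) := by
      apply mul_le_mul h1 _ hGn (by positivity)
      linarith
    have h5 : L ^ 2 * (2 * L) ≤ L ^ A * (2 * L ^ 3) := by
      have e1 : L ^ 2 * (2 * L) = 1 * (2 * L ^ 3) := by ring
      rw [e1]
      exact mul_le_mul_of_nonneg_right hLA1 (by positivity)
    have h6 : L ^ 2 * (2 * L ^ A) ≤ L ^ A * (2 * L ^ 3) := by
      have e1 : L ^ 2 * (2 * L ^ A) = L ^ A * (2 * L ^ 2) := by ring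
      rw [e1]
      apply mul_le_mul_of_nonneg_left _ hLA0.le
      have : L ^ 2 ≤ L ^ 3 := pow_le_pow_right₀ (by linarith) (by norm_num)
      linarith
    have h7 : (1:ℝ) ≤ L ^ A * L ^ 3 := by
      have : (1:ℝ) ≤ L ^ 3 := one_le_pow₀ (by linarith)
      exact k5 _ _ hLA1 this
    rw [h2]
    have h8 : L ^ A * (5 * L ^ 3) ≤ L ^ A * L ^ 4 := by
      apply mul_le_mul_of_nonneg_left _ hLA0.le
      have : L ^ 4 = L * L ^ 3 := by ring
      rw [this]
      exact mul_le_mul_of_nonneg_right (by linarith) (by positivity)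
    linarith
  have hS : ∀ x ∈ 𝒜, (VV g (yB P hh Q (aliveR (fun j => rep (emb (PR y H) j))
      (scolr U (PR y H) x))) (colr (PR H z) (rs (U := U)) x)) ^ 2 ≤ S := by
    intro x hx
    rw [hSdef]
    apply VV_le hP Q ms hsuppm
    rw [← hu]
    refine le_trans ?_ hXbig
    have hx' := (Finset.mem_Ioc.1 (Finset.mem_filter.1 (h𝒜 ▸ hx)).1)
    have h1 := hits_le H z h (Real.exp (L ^ A)) (by linarith) hhH hHz U hU x (by linarith)
      (fun k hk => by
        have h2 := (hU k hk).2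
        have h3 : (x : ℝ) ≤ B₁ := by exact_mod_cast hx'.2
        linarith)
    rw [Real.log_exp, ← hcardκ] at h1
    linarith
  have hSle : S ≤ Real.exp (3 + 2 * ((A + 4) * l * L ^ (1 - a))) := by
    have h1 : X = Real.exp ((A + 4) * l) := by
      rw [hX, Real.rpow_def_of_pos hL0, mul_comm, hl]
    have h2 : X ^ ms ≤ Real.exp ((A + 4) * l * L ^ (1 - a)) := by
      rw [h1, ← Real.exp_nat_mul]
      apply Real.exp_le_exp.2
      rw [mul_comm]
      apply mul_le_mul_of_nonneg_left hms1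
      positivity
    have hX0 : 0 ≤ X ^ ms := by
      rw [h1]
      positivity
    have h3 : (9:ℝ) ≤ Real.exp 3 := by
      have e1 := Real.exp_one_gt_d9
      have e2 : Real.exp 3 = Real.exp 1 * Real.exp 1 * Real.exp 1 := by
        rw [← Real.exp_add, ← Real.exp_add]
        norm_num
      rw [e2]
      have e3 : (2.7:ℝ) * 2.7 * 2.7 ≤ Real.exp 1 * Real.exp 1 * Real.exp 1 := by
        gcongr <;> linarith
      linarith
    rw [hSdef, Real.exp_add, two_mul, Real.exp_add]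
    calc (3 * X ^ ms) ^ 2 = 9 * (X ^ ms * X ^ ms) := by ring
      _ ≤ Real.exp 3 * (Real.exp ((A + 4) * l * L ^ (1 - a)) *
          Real.exp ((A + 4) * l * L ^ (1 - a))) := by
        apply mul_le_mul h3 _ (by positivity) (by positivity)
        exact mul_le_mul h2 h2 hX0 (Real.exp_pos _).le
  have hlast : N / 8 ≤ S * ((𝒜.filter (fun x => ∀ k ∈ (aliveR (fun j => rep (emb (PR y H) j))
      (scolr U (PR y H) x) : Finset {k // k ∈ U}),
        ∃ i, colr (PR H z) (rs (U := U)) x i = some k)).card : ℝ) := by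
    have b1 := Al_modelR (κ := {k // k ∈ U}) (fun j => rep (emb (PR y H) j)) gs hgs0 hrep1
    have b2 := Wt_modelR (κ := {k // k ∈ U}) (fun j => rep (emb (PR y H) j)) gs hgs0 hrep1
      hgs2 M c hcoll (by rw [← hB']; exact hβ1)
    rw [← hB', ← hβ] at b2
    have hτ1 : ε / 32 ≤ 1 := by linarith
    have hτ0 : 0 < ε / 32 := by positivity
    have hag : ∀ T : Finset {k // k ∈ U}, T.card ≤ M →
        wR (fun j => rep (emb (PR y H) j)) gs T = wT (fun j => rep (emb (PR y H) j)) gs M T := by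
      intro T hT
      unfold wT
      rw [if_pos hT]
    clear hC hcap hWmul hcost hErr hCV hCVdef hErrdef hU1 hzJ hfin1 hfin2 hN hρ hNdef h𝒜 hSle
      hSdef
    subst hu
    subst hM'
    subst hn
    exact core_cnt (κ := {k // k ∈ U}) 𝒜 (colr (PR H z) rs)
      (fun x => aliveR (fun j => rep (emb (PR y H) j)) (scolr U (PR y H) x)) hP b2 b1 Q
      (2 / L ^ 2) 3 (ε / 32) N ρ Err CV S J M
      hJe (by norm_num) hN0 hρ0 hErr0 hτ0 hτ1 hag hQ1 hPz a1 a2 a3 a4 hδ a5 a6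
      htail hmom a7 hcnt hfin hS
  have hSnn : 0 ≤ S := by rw [hSdef]; positivity
  refine hlast.trans ?_
  apply mul_le_mul hSle _ (Nat.cast_nonneg _) (Real.exp_pos _).le
  apply Nat.cast_le.2
  apply Finset.card_le_card
  intro x hx
  rw [Finset.mem_filter, h𝒜, Finset.mem_filter] at hx
  obtain ⟨⟨hx1, hx2⟩, hx3⟩ := hx
  rw [Finset.mem_filter]
  refine ⟨hx1, hx2, fun k hk => ?_⟩
  have hinjL := hinj_of h H z hz0.le hhH U hU
  have hzle : z ≤ Real.exp (e ^ 2 * L / l) := by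
    rw [hzexp]
    exact Real.exp_le_exp.2 pz2
  by_cases halive : (⟨k, hk⟩ : {k // k ∈ U}) ∈ aliveR (fun j => rep (emb (PR y H) j))
      (scolr U (PR y H) x)
  · obtain ⟨i, hi⟩ := hx3 ⟨k, hk⟩ halive
    have h1 := (colr_eq hinjL x i ⟨k, hk⟩).mp hi
    have h2 := (mem_PR hz0.le).1 (emb_mem (PR H z) i)
    refine ⟨emb (PR H z) i, h2.1, by linarith [h2.2.1], h2.2.2.trans hzle, ?_⟩
    have h3 : x - rs (emb (PR H z) i) (⟨k, hk⟩ : {k // k ∈ U}) = x + k := by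
      unfold rs
      ring
    rw [h3] at h1
    exact h1
  · rw [mem_alive_iff] at halive
    push Not at halive
    obtain ⟨j, hj⟩ := halive
    have h2 := (mem_PR hH0.le).1 (emb_mem (PR y H) j)
    exact ⟨emb (PR y H) j, h2.1, h2.2.1, (h2.2.2.trans hHz).trans hzle, hj⟩

end Pool.Agent.W5h31.TL
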